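import Pool.Agent.Helper10K9.MWS.Hua

/-! # sums with bounded coefficients -/

set_option autoImplicit false

open Finset MeasureTheory

namespace Pool.Agent.Helper10K9.MWS

open Pool.Agent.W928.MW (e e_add e_norm e_cont e_lip)
open Pool.Agent.TH181.MW (tup J prs e_zero e_sum tup_sum_le sum_Icc_range max_le)

/-- Weyl sum with coefficients -/
noncomputable def smc (c : ℕ → ℂ) (k N : ℕ) (t ξ : ℝ) : ℂ :=
  ∑ n ∈ Icc 1 N, c n * e (t * (n : ℝ) ^ k + ξ * (n : ℝ))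

noncomputable def pc (c : ℕ → ℂ) (s k N m : ℕ) (t : ℝ) : ℂ :=
  ∑ z ∈ prs s N m, e (t * (((∑ i, z i ^ k : ℕ) : ℤ) : ℝ)) * (∏ i, c (z i))

noncomputable def Qc (c : ℕ → ℂ) (s k N : ℕ) (t : ℝ) : ℝ := ∑ m ∈ range (s * N + 1), ‖pc c s k N m t‖ ^ 2

theorem smc_le (c : ℕ → ℂ) (hc : ∀ n, ‖c n‖ ≤ 1) (k N : ℕ) (t ξ : ℝ) : ‖smc c k N t ξ‖ ≤ N := by
  unfold smc
  refine (norm_sum_le _ _).trans ?_
  calc ∑ n ∈ Icc 1 N, ‖c n * e (t * (n : ℝ) ^ k + ξ * (n : ℝ))‖ ≤ ∑ _n ∈ Icc 1 N, (1 : ℝ) := by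
        apply Finset.sum_le_sum
        intro n _
        rw [norm_mul, e_norm, mul_one]
        exact hc n
    _ = N := by simp

theorem smc_pow (c : ℕ → ℂ) (s k N : ℕ) (t ξ : ℝ) :
    smc c k N t ξ ^ s = ∑ m ∈ range (s * N + 1), e (ξ * m) * pc c s k N m t := by
  have h1 : smc c k N t ξ ^ s = ∑ z ∈ tup s N, e (ξ * ((∑ i, z i : ℕ) : ℝ)) *
      (e (t * (((∑ i, z i ^ k : ℕ) : ℤ) : ℝ)) * (∏ i, c (z i))) := by
    unfold smc Pool.Agent.TH181.MW.tup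
    rw [Finset.sum_pow']
    apply Finset.sum_congr rfl
    intro z _
    rw [Finset.prod_mul_distrib, ← e_sum, ← mul_assoc, ← e_add, mul_comm]
    congr 2
    push_cast
    rw [Finset.mul_sum, Finset.mul_sum, ← Finset.sum_add_distrib]
    apply Finset.sum_congr rfl
    intro i _
    ring
  rw [h1, ← Finset.sum_fiberwise_of_maps_to (s := tup s N) (t := range (s * N + 1))
    (g := fun z : Fin s → ℕ => ∑ i, z i)]
  · apply Finset.sum_congr rfl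
    intro m _
    unfold pc Pool.Agent.TH181.MW.prs
    rw [Finset.mul_sum]
    apply Finset.sum_congr rfl
    intro z hz
    rw [Finset.mem_filter] at hz
    rw [hz.2]
  · intro z hz
    rw [Finset.mem_range]
    have := tup_sum_le s N z hz
    omega

theorem supc (c : ℕ → ℂ) (s k N : ℕ) (t ξ : ℝ) :
    ‖smc c k N t ξ‖ ^ (2 * s) ≤ ((s : ℝ) * (N : ℝ) + 1) * Qc c s k N t := by
  have h1 : ‖smc c k N t ξ‖ ^ (2 * s) = ‖smc c k N t ξ ^ s‖ ^ 2 := by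
    rw [norm_pow, ← pow_mul, mul_comm]
  rw [h1, smc_pow]
  have h2 : ‖∑ m ∈ range (s * N + 1), e (ξ * m) * pc c s k N m t‖ ≤
      ∑ m ∈ range (s * N + 1), ‖pc c s k N m t‖ := by
    refine (norm_sum_le _ _).trans (le_of_eq ?_)
    apply Finset.sum_congr rfl
    intro m _
    rw [norm_mul, e_norm, one_mul]
  have h3 := sq_sum_le_card_mul_sum_sq (s := range (s * N + 1)) (f := fun m => ‖pc c s k N m t‖)
  rw [Finset.card_range] at h3
  have h4 : (((s * N + 1 : ℕ) : ℝ)) = (s : ℝ) * (N : ℝ) + 1 := by push_cast; ring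
  rw [h4] at h3
  refine le_trans ?_ h3
  exact pow_le_pow_left₀ (norm_nonneg _) h2 2

theorem pc_cont (c : ℕ → ℂ) (s k N m : ℕ) : Continuous (pc c s k N m) := by
  unfold pc
  refine continuous_finsetSum _ (fun z _ => ?_)
  exact (e_cont.comp (by fun_prop)).mul continuous_const

theorem Qc_cont (c : ℕ → ℂ) (s k N : ℕ) : Continuous (Qc c s k N) := by
  unfold Qc
  refine continuous_finsetSum _ (fun m _ => ?_)
  exact ((pc_cont c s k N m).norm).pow 2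

theorem Qc_nonneg (c : ℕ → ℂ) (s k N : ℕ) (t : ℝ) : 0 ≤ Qc c s k N t := by
  unfold Qc
  positivity

/-- mean square of a trigonometric polynomial with repeated frequencies -/
theorem parseval_le {ι : Type} (S : Finset ι) (m : ι → ℤ) (a : ι → ℂ) (ha : ∀ i, ‖a i‖ ≤ 1) (u v : ℤ)
    (huv : u ≤ v) :
    ∫ x in (u : ℝ)..(v : ℝ), ‖∑ i ∈ S, e (x * (m i : ℝ)) * a i‖ ^ 2 ≤
      ((v : ℝ) - u) * (((S ×ˢ S).filter (fun z => m z.1 - m z.2 = 0)).card : ℝ) := by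
  classical
  have huv' : (u : ℝ) ≤ (v : ℝ) := by exact_mod_cast huv
  have h1 : ∀ x : ℝ, ((‖∑ i ∈ S, e (x * (m i : ℝ)) * a i‖ ^ 2 : ℝ) : ℂ) =
      ∑ z ∈ S ×ˢ S, e (x * ((m z.1 - m z.2 : ℤ) : ℝ)) * (a z.1 * (starRingEnd ℂ) (a z.2)) := by
    intro x
    have h2 : ((‖∑ i ∈ S, e (x * (m i : ℝ)) * a i‖ ^ 2 : ℝ) : ℂ) = (∑ i ∈ S, e (x * (m i : ℝ)) * a i) *
        (starRingEnd ℂ) (∑ i ∈ S, e (x * (m i : ℝ)) * a i) := by
      rw [Complex.mul_conj, Complex.normSq_eq_norm_sq]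
    rw [h2, map_sum, Finset.sum_mul_sum, ← Finset.sum_product']
    apply Finset.sum_congr rfl
    intro z _
    rw [map_mul, Pool.Agent.TH181.MX.e_conj]
    have : e (x * ((m z.1 - m z.2 : ℤ) : ℝ)) = e (x * (m z.1 : ℝ)) * e (-(x * (m z.2 : ℝ))) := by
      rw [← e_add]; congr 1; push_cast; ring
    rw [this]; ring
  have h3 : ((∫ x in (u : ℝ)..(v : ℝ), ‖∑ i ∈ S, e (x * (m i : ℝ)) * a i‖ ^ 2 : ℝ) : ℂ) =
      ∑ z ∈ S ×ˢ S, (if m z.1 - m z.2 = 0 then ((v : ℂ) - u) * (a z.1 * (starRingEnd ℂ) (a z.2)) else 0) := by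
    rw [← intervalIntegral.integral_ofReal]
    simp_rw [h1]
    rw [intervalIntegral.integral_finsetSum]
    · apply Finset.sum_congr rfl
      intro z _
      rw [intervalIntegral.integral_mul_const, Pool.Agent.TH181.MX.int_e]
      split_ifs <;> simp
    · intro z _
      apply Continuous.intervalIntegrable
      refine Continuous.mul ?_ continuous_const
      exact e_cont.comp (by fun_prop)
  have h0 : 0 ≤ ∫ x in (u : ℝ)..(v : ℝ), ‖∑ i ∈ S, e (x * (m i : ℝ)) * a i‖ ^ 2 := by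
    apply intervalIntegral.integral_nonneg huv'
    intro x _
    positivity
  have h4 : ∫ x in (u : ℝ)..(v : ℝ), ‖∑ i ∈ S, e (x * (m i : ℝ)) * a i‖ ^ 2 =
      ‖((∫ x in (u : ℝ)..(v : ℝ), ‖∑ i ∈ S, e (x * (m i : ℝ)) * a i‖ ^ 2 : ℝ) : ℂ)‖ := by
    rw [Complex.norm_real, Real.norm_of_nonneg h0]
  rw [h4, h3, ← Finset.sum_filter]
  refine (norm_sum_le _ _).trans ?_
  have h5 : ∀ z ∈ (S ×ˢ S).filter (fun z => m z.1 - m z.2 = 0),
      ‖((v : ℂ) - u) * (a z.1 * (starRingEnd ℂ) (a z.2))‖ ≤ (v : ℝ) - u := by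
    intro z _
    rw [norm_mul, norm_mul, Complex.norm_conj]
    have h6 : ‖((v : ℂ) - u)‖ = (v : ℝ) - u := by
      have : ((v : ℂ) - u) = (((v : ℝ) - u : ℝ) : ℂ) := by push_cast; rfl
      rw [this, Complex.norm_real, Real.norm_of_nonneg (by linarith)]
    rw [h6]
    have h7 : ‖a z.1‖ * ‖a z.2‖ ≤ 1 := mul_le_one₀ (ha _) (norm_nonneg _) (ha _)
    have h8 : 0 ≤ (v : ℝ) - u := by linarith
    nlinarith
  refine (Finset.sum_le_sum h5).trans (le_of_eq ?_)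
  rw [Finset.sum_const, nsmul_eq_mul, mul_comm]

theorem prod_c (c : ℕ → ℂ) (hc : ∀ n, ‖c n‖ ≤ 1) (s : ℕ) (z : Fin s → ℕ) : ‖∏ i, c (z i)‖ ≤ 1 := by
  rw [norm_prod]
  exact Finset.prod_le_one (fun i _ => norm_nonneg _) (fun i _ => hc _)

theorem int_Qc (c : ℕ → ℂ) (hc : ∀ n, ‖c n‖ ≤ 1) (s k N : ℕ) (u v : ℤ) (huv : u ≤ v) :
    ∫ t in (u : ℝ)..(v : ℝ), Qc c s k N t ≤ ((v : ℝ) - u) * (J s k N : ℝ) := by
  unfold Qc
  rw [intervalIntegral.integral_finsetSum]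
  swap
  · intro m _
    exact (((pc_cont c s k N m).norm).pow 2).intervalIntegrable _ _
  have h1 : ∀ m ∈ range (s * N + 1), ∫ t in (u : ℝ)..(v : ℝ), ‖pc c s k N m t‖ ^ 2 ≤
      ((v : ℝ) - u) * ((((prs s N m) ×ˢ (prs s N m)).filter (fun z => dl s k z.1 z.2 = 0)).card : ℝ) := by
    intro m _
    exact parseval_le (prs s N m) (fun z : Fin s → ℕ => ((∑ i, z i ^ k : ℕ) : ℤ)) (fun z => ∏ i, c (z i))
      (prod_c c hc s) u v huv
  refine (Finset.sum_le_sum h1).trans (le_of_eq ?_)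
  rw [← Finset.mul_sum, J_fib]
  push_cast
  rfl

theorem measc (c : ℕ → ℂ) (hc : ∀ n, ‖c n‖ ≤ 1) (s k N : ℕ) (u v : ℤ) (lam : ℝ) (huv : u ≤ v) (hl : 0 < lam) :
    volume {t : ℝ | t ∈ Set.Icc (u : ℝ) (v : ℝ) ∧ ∃ ξ : ℝ, lam ≤ ‖smc c k N t ξ‖} ≤
      ENNReal.ofReal (((s : ℝ) * (N : ℝ) + 1) * (((v : ℝ) - u) * (J s k N : ℝ)) / lam ^ (2 * s)) := by
  set ρ : ℝ := lam ^ (2 * s) / ((s : ℝ) * (N : ℝ) + 1) with hρ
  have huv' : (u : ℝ) ≤ (v : ℝ) := by exact_mod_cast huv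
  have hN0 : (0 : ℝ) < (s : ℝ) * (N : ℝ) + 1 := by positivity
  have hρ0 : 0 < ρ := by positivity
  have hsub : {t : ℝ | t ∈ Set.Icc (u : ℝ) (v : ℝ) ∧ ∃ ξ : ℝ, lam ≤ ‖smc c k N t ξ‖} ⊆
      {t : ℝ | ρ ≤ Qc c s k N t} ∩ Set.Icc (u : ℝ) (v : ℝ) := by
    rintro t ⟨ht, ξ, hξ⟩
    refine ⟨?_, ht⟩
    have h1 := supc c s k N t ξ
    have h2 : lam ^ (2 * s) ≤ ‖smc c k N t ξ‖ ^ (2 * s) := pow_le_pow_left₀ hl.le hξ (2 * s)
    change ρ ≤ Qc c s k N t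
    rw [hρ, div_le_iff₀ hN0]
    linarith
  have hmeas : MeasurableSet {t : ℝ | ρ ≤ Qc c s k N t} :=
    (isClosed_le continuous_const (Qc_cont c s k N)).measurableSet
  have hint : Integrable (Qc c s k N) (volume.restrict (Set.Icc (u : ℝ) (v : ℝ))) :=
    ((Qc_cont c s k N).continuousOn).integrableOn_Icc
  have h3 := mul_meas_ge_le_integral_of_nonneg (μ := volume.restrict (Set.Icc (u : ℝ) (v : ℝ))) (f := Qc c s k N)
    (Filter.Eventually.of_forall (Qc_nonneg c s k N)) hint ρ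
  have h4 : ∫ x, Qc c s k N x ∂(volume.restrict (Set.Icc (u : ℝ) (v : ℝ))) =
      ∫ t in (u : ℝ)..(v : ℝ), Qc c s k N t := by
    rw [intervalIntegral.integral_of_le huv', integral_Icc_eq_integral_Ioc]
  rw [h4] at h3
  have h3' := h3.trans (int_Qc c hc s k N u v huv)
  have h5 : (volume.restrict (Set.Icc (u : ℝ) (v : ℝ))).real {t : ℝ | ρ ≤ Qc c s k N t} =
      (volume ({t : ℝ | ρ ≤ Qc c s k N t} ∩ Set.Icc (u : ℝ) (v : ℝ))).toReal := by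
    unfold Measure.real
    rw [Measure.restrict_apply hmeas]
  rw [h5] at h3'
  have hfin : volume ({t : ℝ | ρ ≤ Qc c s k N t} ∩ Set.Icc (u : ℝ) (v : ℝ)) ≠ ⊤ := by
    refine ne_top_of_le_ne_top ?_ (measure_mono Set.inter_subset_right)
    rw [Real.volume_Icc]
    exact ENNReal.ofReal_ne_top
  refine (measure_mono hsub).trans ?_
  rw [← ENNReal.ofReal_toReal hfin]
  apply ENNReal.ofReal_le_ofReal
  have h6 : (volume ({t : ℝ | ρ ≤ Qc c s k N t} ∩ Set.Icc (u : ℝ) (v : ℝ))).toReal ≤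
      (((v : ℝ) - u) * (J s k N : ℝ)) / ρ := by
    rw [le_div_iff₀ hρ0]
    linarith [h3', mul_comm ρ (volume ({t : ℝ | ρ ≤ Qc c s k N t} ∩ Set.Icc (u : ℝ) (v : ℝ))).toReal]
  refine h6.trans (le_of_eq ?_)
  rw [hρ]
  field_simp

/-- incomplete sums -/
theorem maxc (c : ℕ → ℂ) (k N M : ℕ) (t K : ℝ) (hN : 1 ≤ N) (hM : M ≤ N)
    (h : ∀ η : ℝ, ‖smc c k N t η‖ ≤ K) (ξ : ℝ) : ‖smc c k M t ξ‖ ≤ (2 + Real.log N) * K := by
  have hf : ∀ (m : ℕ) (x : ℝ), smc c k m t x = ∑ n ∈ Icc 1 m, (c n * e (t * (n : ℝ) ^ k)) * e (x * n) := by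
    intro m x
    unfold smc
    apply Finset.sum_congr rfl
    intro n _
    rw [e_add, mul_assoc]
  have h1 := max_le N M hN hM (fun n => c n * e (t * (n : ℝ) ^ k)) K (fun η => by
    have := h η
    rwa [hf] at this) ξ
  rwa [← hf] at h1

/-- passing from `t` to a point at distance `N^(-k)` -/
theorem shiftc (c : ℕ → ℂ) (k N M : ℕ) (t t' ξ B : ℝ) (hN : 1 ≤ N) (hM : M ≤ N) (hB : 0 ≤ B)
    (htt : |t - t'| ≤ 1 / (N : ℝ) ^ k)
    (h : ∀ m : ℕ, m ≤ N → ‖smc c k m t' ξ‖ ≤ B) : ‖smc c k M t ξ‖ ≤ (1 + 2 * Real.pi * 2 ^ k) * B := by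
  have hN' : (1 : ℝ) ≤ N := by exact_mod_cast hN
  have hN0 : (0 : ℝ) < N := by linarith
  have h1 : smc c k M t ξ = ∑ x ∈ range M, e ((t - t') * ((x + 1 : ℕ) : ℝ) ^ k) *
      (c (x + 1) * e (t' * ((x + 1 : ℕ) : ℝ) ^ k + ξ * ((x + 1 : ℕ) : ℝ))) := by
    unfold smc
    rw [sum_Icc_range]
    apply Finset.sum_congr rfl
    intro x _
    have : e (t * ((x + 1 : ℕ) : ℝ) ^ k + ξ * ((x + 1 : ℕ) : ℝ)) =
        e ((t - t') * ((x + 1 : ℕ) : ℝ) ^ k) * e (t' * ((x + 1 : ℕ) : ℝ) ^ k + ξ * ((x + 1 : ℕ) : ℝ)) := by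
      rw [← e_add]
      congr 1
      ring
    rw [this]
    ring
  have h2 := Pool.Agent.H520R3.abel_bound (fun x : ℕ => e ((t - t') * ((x + 1 : ℕ) : ℝ) ^ k))
    (fun x : ℕ => c (x + 1) * e (t' * ((x + 1 : ℕ) : ℝ) ^ k + ξ * ((x + 1 : ℕ) : ℝ))) B (2 * Real.pi * 2 ^ k) hB M
    (by
      intro X hX
      have h3 := h X (hX.trans hM)
      unfold smc at h3
      rwa [sum_Icc_range] at h3)
    (fun x => (e_norm _).le)
    (by
      have h4 : ∀ x ∈ range M, ‖e ((t - t') * ((x + 1 + 1 : ℕ) : ℝ) ^ k) - e ((t - t') * ((x + 1 : ℕ) : ℝ) ^ k)‖ ≤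
          2 * Real.pi * |t - t'| * (((x + 1 + 1 : ℕ) : ℝ) ^ k - ((x + 1 : ℕ) : ℝ) ^ k) := by
        intro x _
        refine (e_lip _ _).trans (le_of_eq ?_)
        rw [← mul_sub, abs_mul, abs_of_nonneg (a := ((x + 1 + 1 : ℕ) : ℝ) ^ k - ((x + 1 : ℕ) : ℝ) ^ k)]
        · ring
        · have : ((x + 1 : ℕ) : ℝ) ^ k ≤ ((x + 1 + 1 : ℕ) : ℝ) ^ k :=
            pow_le_pow_left₀ (by positivity) (by push_cast; linarith) k
          linarith
      refine (Finset.sum_le_sum h4).trans ?_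
      rw [← Finset.mul_sum, Finset.sum_range_sub (fun x : ℕ => ((x + 1 : ℕ) : ℝ) ^ k)]
      have h5 : ((M + 1 : ℕ) : ℝ) ^ k - ((0 + 1 : ℕ) : ℝ) ^ k ≤ (2 * (N : ℝ)) ^ k := by
        have h6 : ((M + 1 : ℕ) : ℝ) ^ k ≤ (2 * (N : ℝ)) ^ k := by
          apply pow_le_pow_left₀ (by positivity)
          have : (M : ℝ) ≤ N := by exact_mod_cast hM
          push_cast
          linarith
        have h7 : (0 : ℝ) ≤ ((0 + 1 : ℕ) : ℝ) ^ k := by positivity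
        linarith
      calc 2 * Real.pi * |t - t'| * (((M + 1 : ℕ) : ℝ) ^ k - ((0 + 1 : ℕ) : ℝ) ^ k)
          ≤ 2 * Real.pi * |t - t'| * (2 * (N : ℝ)) ^ k :=
            mul_le_mul_of_nonneg_left h5 (by positivity)
        _ ≤ 2 * Real.pi * (1 / (N : ℝ) ^ k) * (2 * (N : ℝ)) ^ k := by
            apply mul_le_mul_of_nonneg_right _ (by positivity)
            exact mul_le_mul_of_nonneg_left htt (by positivity)
        _ = 2 * Real.pi * 2 ^ k := by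
            rw [mul_pow]
            field_simp)
  rw [h1]
  refine h2.trans (le_of_eq ?_)
  ring

end Pool.Agent.Helper10K9.MWS
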