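import Pool.Agent.TH181.MW.HuaB
import Pool.Agent.TH181.MW.Mom
import Pool.Agent.TH181.MX.Lin

/-! # from the moment `2 s` to the moment `2 s + 2 ^ j` -/

set_option autoImplicit false

open Finset MeasureTheory

namespace Pool.Agent.Helper10K9.MWS

open Pool.Agent.W928.MW (e sm e_add e_norm e_sub_re e_cont sm_le e_lip)
open Pool.Agent.TH181.MW (tup J prs p Q LS AA ph TT Lam weyl' p_sq int_cos int_Q sm_pow Lam_zero Lam_nonzero
  mem_LS ph_id LS_card card_H tup_sum_le p_cont Q_cont Q_nonneg)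

theorem TT_re (k N : ℕ) (t ξ : ℝ) (l : List ℤ) (hl : 2 ≤ l.length) :
    (TT k N t ξ l).re = ∑ n ∈ AA N l, Real.cos (2 * Real.pi * (t * ((ph (fun n => n ^ k) l n : ℤ) : ℝ))) := by
  unfold Pool.Agent.TH181.MW.TT
  rw [Complex.re_sum]
  apply Finset.sum_congr rfl
  intro n _
  rw [ph_id l hl n]
  have h := e_sub_re (t * ((ph (fun n => n ^ k) l n : ℤ) : ℝ)) 0
  rw [Pool.Agent.TH181.MW.e_zero, map_one, mul_one, sub_zero] at h
  rw [Int.cast_zero, mul_zero, add_zero]
  exact h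

theorem TT_sum (k N j : ℕ) (hj : 2 ≤ j) (t ξ : ℝ) :
    (∑ l ∈ LS (Icc (-(N : ℤ)) N) j, TT k N t ξ l).re =
      ∑ z ∈ Lam N j, Real.cos (2 * Real.pi * (t * ((ph (fun n => n ^ k) z.1 z.2 : ℤ) : ℝ))) := by
  unfold Pool.Agent.TH181.MW.Lam
  rw [Finset.sum_sigma, Complex.re_sum]
  apply Finset.sum_congr rfl
  intro l hl
  rw [mem_LS] at hl
  exact TT_re k N t ξ l (by rw [hl.1]; exact hj)

theorem int_cos2 (a b : ℤ) : ∫ t in ((0 : ℤ) : ℝ)..((1 : ℤ) : ℝ),
    Real.cos (2 * Real.pi * (t * (a : ℝ))) * Real.cos (2 * Real.pi * (t * (b : ℝ))) =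
      ((if a + b = 0 then 1 else 0) + (if a - b = 0 then 1 else 0)) / 2 := by
  have h1 : ∀ t : ℝ, Real.cos (2 * Real.pi * (t * (a : ℝ))) * Real.cos (2 * Real.pi * (t * (b : ℝ))) =
      (1 / 2) * Real.cos (2 * Real.pi * (t * ((a + b : ℤ) : ℝ))) +
      (1 / 2) * Real.cos (2 * Real.pi * (t * ((a - b : ℤ) : ℝ))) := by
    intro t
    have e1 : 2 * Real.pi * (t * ((a + b : ℤ) : ℝ)) = 2 * Real.pi * (t * (a : ℝ)) + 2 * Real.pi * (t * (b : ℝ)) := by
      push_cast; ring
    have e2 : 2 * Real.pi * (t * ((a - b : ℤ) : ℝ)) = 2 * Real.pi * (t * (a : ℝ)) - 2 * Real.pi * (t * (b : ℝ)) := by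
      push_cast; ring
    rw [e1, e2, Real.cos_add, Real.cos_sub]
    ring
  simp_rw [h1]
  rw [intervalIntegral.integral_add, intervalIntegral.integral_const_mul, intervalIntegral.integral_const_mul,
    int_cos, int_cos]
  · push_cast
    simp only [sub_zero]
    ring
  · apply Continuous.intervalIntegrable; fun_prop
  · apply Continuous.intervalIntegrable; fun_prop

/-- `Q` is the moment over the linear coefficient -/
theorem Q_int (s k N : ℕ) (t : ℝ) : ∫ x in ((0 : ℤ) : ℝ)..((1 : ℤ) : ℝ), ‖sm k N t x‖ ^ (2 * s) = Q s k N t := by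
  have h1 : ∀ x : ℝ, ‖sm k N t x‖ ^ (2 * s) =
      ‖∑ m ∈ range (s * N + 1), e (x * (((m : ℕ) : ℤ) : ℝ)) * p s k N m t‖ ^ 2 := by
    intro x
    have : ‖sm k N t x‖ ^ (2 * s) = ‖sm k N t x ^ s‖ ^ 2 := by
      rw [norm_pow, ← pow_mul, mul_comm]
    rw [this, sm_pow]
    push_cast
    rfl
  simp_rw [h1]
  rw [Pool.Agent.TH181.MX.parseval (range (s * N + 1)) (fun m : ℕ => (m : ℤ)) (fun a _ b _ h => by simpa using h)]
  unfold Pool.Agent.TH181.MW.Q
  push_cast
  ring

/-- difference of the power sums -/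
def dl (s k : ℕ) (z w : Fin s → ℕ) : ℤ := ((∑ i, z i ^ k : ℕ) : ℤ) - ((∑ i, w i ^ k : ℕ) : ℤ)

theorem p_sq' (s k N m : ℕ) (t : ℝ) : ‖p s k N m t‖ ^ 2 = ∑ z ∈ (prs s N m) ×ˢ (prs s N m),
    Real.cos (2 * Real.pi * (t * ((dl s k z.1 z.2 : ℤ) : ℝ))) := by
  rw [p_sq, ← Finset.sum_product']
  apply Finset.sum_congr rfl
  intro z _
  congr 3
  unfold dl
  push_cast
  ring

theorem J_fib (s k N : ℕ) : J s k N = ∑ m ∈ range (s * N + 1),
    (((prs s N m) ×ˢ (prs s N m)).filter (fun z => dl s k z.1 z.2 = 0)).card := by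
  unfold Pool.Agent.TH181.MW.J
  rw [Finset.card_eq_sum_card_fiberwise (f := fun z : (Fin s → ℕ) × (Fin s → ℕ) => ∑ i, z.1 i)
    (t := range (s * N + 1))]
  · apply Finset.sum_congr rfl
    intro m _
    congr 1
    ext z
    simp only [Finset.mem_filter, Finset.mem_product, Pool.Agent.TH181.MW.prs, dl, sub_eq_zero, Nat.cast_inj]
    constructor
    · rintro ⟨⟨⟨a1, b1⟩, d, c⟩, a2⟩
      exact ⟨⟨⟨a1, a2⟩, b1, d.symm.trans a2⟩, c⟩
    · rintro ⟨⟨⟨a1, a2⟩, b1, b2⟩, c⟩
      exact ⟨⟨⟨a1, b1⟩, a2.trans b2.symm, c⟩, a2⟩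
  · intro z hz
    have hz' := (Finset.mem_filter.mp hz).1
    rw [Finset.mem_product] at hz'
    have := tup_sum_le s N z.1 hz'.1
    simp only [Finset.coe_range, Set.mem_Iio]
    omega

theorem prs_card (s N m : ℕ) : (prs (s + 1) N m).card ≤ N ^ s := by
  have h1 : (prs (s + 1) N m).card ≤ (tup s N).card := by
    apply Finset.card_le_card_of_injOn (fun z => fun i : Fin s => z i.castSucc)
    · intro z hz
      rw [Finset.mem_coe] at hz
      unfold Pool.Agent.TH181.MW.prs at hz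
      rw [Finset.mem_filter] at hz
      unfold Pool.Agent.TH181.MW.tup at hz ⊢
      rw [Fintype.mem_piFinset] at hz
      rw [Finset.mem_coe, Fintype.mem_piFinset]
      intro i
      exact hz.1 i.castSucc
    · intro z hz z' hz' h
      rw [Finset.mem_coe] at hz hz'
      unfold Pool.Agent.TH181.MW.prs at hz hz'
      rw [Finset.mem_filter] at hz hz'
      have e1 := hz.2
      have e2 := hz'.2
      rw [Fin.sum_univ_castSucc] at e1 e2
      have e3 : ∑ i : Fin s, z i.castSucc = ∑ i : Fin s, z' i.castSucc :=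
        Finset.sum_congr rfl (fun i _ => congrFun h i)
      funext i
      refine Fin.lastCases ?_ (fun i => congrFun h i) i
      omega
  refine h1.trans (le_of_eq ?_)
  unfold Pool.Agent.TH181.MW.tup
  rw [Fintype.card_piFinset]
  simp

theorem prs_sum (s N : ℕ) : ∑ m ∈ range (s * N + 1), (prs s N m).card = N ^ s := by
  have h1 : (tup s N).card = ∑ m ∈ range (s * N + 1), (prs s N m).card := by
    rw [Finset.card_eq_sum_card_fiberwise (f := fun z : (Fin s → ℕ) => ∑ i, z i)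
      (t := range (s * N + 1))]
    · rfl
    · intro z hz
      have := tup_sum_le s N z hz
      simp only [Finset.coe_range, Set.mem_Iio]
      omega
  rw [← h1]
  unfold Pool.Agent.TH181.MW.tup
  rw [Fintype.card_piFinset]
  simp

theorem dl_abs (s k N : ℕ) (z w : Fin s → ℕ) (hz : z ∈ tup s N) (hw : w ∈ tup s N) :
    (dl s k z w).natAbs ≤ s * N ^ k := by
  have h1 : ∀ z : Fin s → ℕ, z ∈ tup s N → ∑ i, z i ^ k ≤ s * N ^ k := by
    intro z hz
    unfold Pool.Agent.TH181.MW.tup at hz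
    rw [Fintype.mem_piFinset] at hz
    calc ∑ i, z i ^ k ≤ ∑ _i : Fin s, N ^ k :=
          Finset.sum_le_sum (fun i _ => Nat.pow_le_pow_left (Finset.mem_Icc.mp (hz i)).2 k)
      _ = s * N ^ k := by simp
  have a := h1 z hz
  have b := h1 w hw
  unfold dl
  omega

/-- the number of solutions met by one pair -/
theorem one_pair (k N j D : ℕ) (hj : j < k) (d : ℤ)
    (hD : d ≠ 0 → d.natAbs.divisors.card ≤ D) :
    ∫ t in ((0 : ℤ) : ℝ)..((1 : ℤ) : ℝ),
      (∑ z ∈ Lam N j, Real.cos (2 * Real.pi * (t * ((ph (fun n => n ^ k) z.1 z.2 : ℤ) : ℝ)))) *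
        Real.cos (2 * Real.pi * (t * (d : ℝ))) ≤
      (if d = 0 then ((j : ℝ) + k) * (2 * (N : ℝ) + 1) ^ j else 0) + (2 * (D : ℝ)) ^ j * k := by
  have h1 : ∫ t in ((0 : ℤ) : ℝ)..((1 : ℤ) : ℝ),
      (∑ z ∈ Lam N j, Real.cos (2 * Real.pi * (t * ((ph (fun n => n ^ k) z.1 z.2 : ℤ) : ℝ)))) *
        Real.cos (2 * Real.pi * (t * (d : ℝ))) =
      ((((Lam N j).filter (fun z => ph (fun n => n ^ k) z.1 z.2 = -d)).card : ℝ) +
        (((Lam N j).filter (fun z => ph (fun n => n ^ k) z.1 z.2 = d)).card : ℝ)) / 2 := by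
    simp_rw [Finset.sum_mul]
    rw [intervalIntegral.integral_finsetSum]
    · simp_rw [int_cos2]
      rw [← Finset.sum_div, Finset.sum_add_distrib]
      congr 1
      congr 1
      · rw [Finset.sum_ite, Finset.sum_const_zero, add_zero, Finset.sum_const, nsmul_eq_mul, mul_one]
        congr 2
        apply Finset.filter_congr
        intro z _
        constructor
        · intro h; omega
        · intro h; omega
      · rw [Finset.sum_ite, Finset.sum_const_zero, add_zero, Finset.sum_const, nsmul_eq_mul, mul_one]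
        congr 2
        apply Finset.filter_congr
        intro z _
        constructor
        · intro h; omega
        · intro h; omega
    · intro z _
      apply Continuous.intervalIntegrable
      fun_prop
  rw [h1]
  have hk0 : (0 : ℝ) ≤ (2 * (D : ℝ)) ^ j * k := by positivity
  by_cases hd : d = 0
  · subst hd
    rw [if_pos rfl, neg_zero]
    have h2 := Lam_zero k N j hj
    have h3 : ((((Lam N j).filter (fun z => ph (fun n => n ^ k) z.1 z.2 = 0)).card : ℕ) : ℝ) ≤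
        ((j : ℝ) + k) * (2 * (N : ℝ) + 1) ^ j := by exact_mod_cast h2
    linarith
  · rw [if_neg hd, zero_add]
    have h2 := Lam_nonzero k N j D hj d hd (hD hd)
    have h3 := Lam_nonzero k N j D hj (-d) (by omega) (by rw [Int.natAbs_neg]; exact hD hd)
    have h2' : ((((Lam N j).filter (fun z => ph (fun n => n ^ k) z.1 z.2 = d)).card : ℕ) : ℝ) ≤
        (2 * (D : ℝ)) ^ j * k := by exact_mod_cast h2
    have h3' : ((((Lam N j).filter (fun z => ph (fun n => n ^ k) z.1 z.2 = -d)).card : ℕ) : ℝ) ≤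
        (2 * (D : ℝ)) ^ j * k := by exact_mod_cast h3
    linarith

/-- the weighted moment -/
theorem weighted (s k N j D : ℕ) (hj : j < k)
    (hD : ∀ n : ℕ, 1 ≤ n → n ≤ (s + 1) * N ^ k → n.divisors.card ≤ D) :
    ∫ t in ((0 : ℤ) : ℝ)..((1 : ℤ) : ℝ),
      (∑ z ∈ Lam N j, Real.cos (2 * Real.pi * (t * ((ph (fun n => n ^ k) z.1 z.2 : ℤ) : ℝ)))) * Q (s + 1) k N t ≤
      ((j : ℝ) + k) * (2 * (N : ℝ) + 1) ^ j * (J (s + 1) k N : ℝ) +
        (2 * (D : ℝ)) ^ j * k * (N : ℝ) ^ (2 * s + 1) := by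
  have h1 : ∀ t : ℝ, (∑ z ∈ Lam N j, Real.cos (2 * Real.pi * (t * ((ph (fun n => n ^ k) z.1 z.2 : ℤ) : ℝ)))) *
      Q (s + 1) k N t = ∑ m ∈ range ((s + 1) * N + 1), ∑ w ∈ (prs (s + 1) N m) ×ˢ (prs (s + 1) N m),
        (∑ z ∈ Lam N j, Real.cos (2 * Real.pi * (t * ((ph (fun n => n ^ k) z.1 z.2 : ℤ) : ℝ)))) *
          Real.cos (2 * Real.pi * (t * ((dl (s + 1) k w.1 w.2 : ℤ) : ℝ))) := by
    intro t
    unfold Pool.Agent.TH181.MW.Q
    rw [Finset.mul_sum]
    apply Finset.sum_congr rfl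
    intro m _
    rw [p_sq', Finset.mul_sum]
  simp_rw [h1]
  have hcont : ∀ w : (Fin (s + 1) → ℕ) × (Fin (s + 1) → ℕ), Continuous fun t : ℝ =>
      (∑ z ∈ Lam N j, Real.cos (2 * Real.pi * (t * ((ph (fun n => n ^ k) z.1 z.2 : ℤ) : ℝ)))) *
          Real.cos (2 * Real.pi * (t * ((dl (s + 1) k w.1 w.2 : ℤ) : ℝ))) := by
    intro w
    refine Continuous.mul (continuous_finsetSum _ (fun z _ => ?_)) ?_
    · fun_prop
    · fun_prop
  rw [intervalIntegral.integral_finsetSum]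
  swap
  · intro m _
    exact (continuous_finsetSum _ (fun w _ => hcont w)).intervalIntegrable _ _
  have h2 : ∀ m ∈ range ((s + 1) * N + 1), ∫ t in ((0 : ℤ) : ℝ)..((1 : ℤ) : ℝ),
      ∑ w ∈ (prs (s + 1) N m) ×ˢ (prs (s + 1) N m),
        (∑ z ∈ Lam N j, Real.cos (2 * Real.pi * (t * ((ph (fun n => n ^ k) z.1 z.2 : ℤ) : ℝ)))) *
          Real.cos (2 * Real.pi * (t * ((dl (s + 1) k w.1 w.2 : ℤ) : ℝ))) ≤
      ((j : ℝ) + k) * (2 * (N : ℝ) + 1) ^ j *
        ((((prs (s + 1) N m) ×ˢ (prs (s + 1) N m)).filter (fun z => dl (s + 1) k z.1 z.2 = 0)).card : ℝ) +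
      (2 * (D : ℝ)) ^ j * k * ((N : ℝ) ^ s * ((prs (s + 1) N m).card : ℝ)) := by
    intro m _
    rw [intervalIntegral.integral_finsetSum (fun w _ => (hcont w).intervalIntegrable _ _)]
    have h3 : ∀ w ∈ (prs (s + 1) N m) ×ˢ (prs (s + 1) N m), ∫ t in ((0 : ℤ) : ℝ)..((1 : ℤ) : ℝ),
        (∑ z ∈ Lam N j, Real.cos (2 * Real.pi * (t * ((ph (fun n => n ^ k) z.1 z.2 : ℤ) : ℝ)))) *
          Real.cos (2 * Real.pi * (t * ((dl (s + 1) k w.1 w.2 : ℤ) : ℝ))) ≤
        (if dl (s + 1) k w.1 w.2 = 0 then ((j : ℝ) + k) * (2 * (N : ℝ) + 1) ^ j else 0) +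
          (2 * (D : ℝ)) ^ j * k := by
      intro w hw
      apply one_pair k N j D hj
      intro hd
      rw [Finset.mem_product] at hw
      unfold Pool.Agent.TH181.MW.prs at hw
      rw [Finset.mem_filter, Finset.mem_filter] at hw
      apply hD
      · have := Int.natAbs_ne_zero.mpr hd
        omega
      · exact dl_abs (s + 1) k N w.1 w.2 hw.1.1 hw.2.1
    refine (Finset.sum_le_sum h3).trans ?_
    rw [Finset.sum_add_distrib]
    apply add_le_add
    · rw [Finset.sum_ite, Finset.sum_const_zero, add_zero, Finset.sum_const, nsmul_eq_mul, mul_comm]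
    · rw [Finset.sum_const, Finset.card_product, nsmul_eq_mul, mul_comm]
      apply mul_le_mul_of_nonneg_left _ (by positivity)
      push_cast
      apply mul_le_mul_of_nonneg_right _ (by positivity)
      exact_mod_cast prs_card s N m
  refine (Finset.sum_le_sum h2).trans ?_
  rw [Finset.sum_add_distrib, ← Finset.mul_sum, ← Finset.mul_sum, ← Finset.mul_sum]
  apply add_le_add
  · apply le_of_eq
    congr 1
    rw [J_fib]
    push_cast
    rfl
  · apply mul_le_mul_of_nonneg_left _ (by positivity)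
    have h4 := prs_sum (s + 1) N
    have h5 : ∑ m ∈ range ((s + 1) * N + 1), ((prs (s + 1) N m).card : ℝ) = (N : ℝ) ^ (s + 1) := by
      exact_mod_cast h4
    rw [h5]
    apply le_of_eq
    ring

/-- Hua's step -/
theorem step (s k N j D : ℕ) (hj : j + 2 < k)
    (hD : ∀ n : ℕ, 1 ≤ n → n ≤ (s + 1) * N ^ k → n.divisors.card ≤ D) :
    (J (s + 1 + 2 ^ (j + 1)) k N : ℝ) ≤ (2 * (N : ℝ) + 1) ^ (2 ^ (j + 2) - (j + 2) - 1) *
      ((((j + 2 : ℕ) : ℝ) + k) * (2 * (N : ℝ) + 1) ^ (j + 2) * (J (s + 1) k N : ℝ) +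
        (2 * (D : ℝ)) ^ (j + 2) * k * (N : ℝ) ^ (2 * s + 1)) := by
  have h1 := int_Q (s + 1 + 2 ^ (j + 1)) k N 0 1
  have h2 : (J (s + 1 + 2 ^ (j + 1)) k N : ℝ) =
      ∫ t in ((0 : ℤ) : ℝ)..((1 : ℤ) : ℝ), Q (s + 1 + 2 ^ (j + 1)) k N t := by
    rw [h1]; push_cast; ring
  rw [h2]
  refine le_trans ?_ (mul_le_mul_of_nonneg_left (weighted s k N (j + 2) D hj hD) (by positivity))
  rw [← intervalIntegral.integral_const_mul]
  apply intervalIntegral.integral_mono_on (by norm_num)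
  · exact (Q_cont _ _ _).intervalIntegrable _ _
  · apply Continuous.intervalIntegrable
    refine Continuous.mul continuous_const (Continuous.mul (continuous_finsetSum _ (fun z _ => ?_)) (Q_cont _ _ _))
    fun_prop
  · intro t _
    rw [← Q_int, ← Q_int, ← intervalIntegral.integral_const_mul, ← intervalIntegral.integral_const_mul]
    apply intervalIntegral.integral_mono_on (by norm_num)
    · apply Continuous.intervalIntegrable
      have := Pool.Agent.TH181.MX.sm_cont k N t 0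
      simp only [add_zero] at this
      fun_prop
    · apply Continuous.intervalIntegrable
      have := Pool.Agent.TH181.MX.sm_cont k N t 0
      simp only [add_zero] at this
      fun_prop
    · intro x _
      have h3 := weyl' k N (j + 1) t x
      rw [TT_sum k N (j + 1 + 1) (by omega) t x] at h3
      have h4 : ‖sm k N t x‖ ^ (2 * (s + 1 + 2 ^ (j + 1))) =
          ‖sm k N t x‖ ^ (2 ^ (j + 1 + 1)) * ‖sm k N t x‖ ^ (2 * (s + 1)) := by
        rw [← pow_add]
        congr 1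
        rw [pow_succ 2 (j + 1)]
        ring
      rw [h4]
      have h5 := mul_le_mul_of_nonneg_right h3 (show 0 ≤ ‖sm k N t x‖ ^ (2 * (s + 1)) by positivity)
      refine h5.trans (le_of_eq ?_)
      have h6 : j + 1 + 1 = j + 2 := by ring
      rw [h6]
      ring

end Pool.Agent.Helper10K9.MWS
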