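import Pool.Agent.Helper10K9.MWS.Six
import Pool.Agent.Helper10K9.MWS.Hua

/-! # the moments of order `2 ^ j + 2` -/

set_option autoImplicit false

open Finset

namespace Pool.Agent.Helper10K9.MWS

open Pool.Agent.TH181.MW (tup J)

theorem div_bd (A : ℝ) (hA : 0 < A) (k j : ℕ) (η : ℝ) (hη : 0 < η) : ∃ C : ℝ, 0 < C ∧ ∀ N : ℕ, 1 ≤ N →
    ∃ D : ℕ, (∀ n : ℕ, 1 ≤ n → (n : ℝ) ≤ A * (N : ℝ) ^ k → n.divisors.card ≤ D) ∧
      (2 * (D : ℝ)) ^ j ≤ C * (N : ℝ) ^ η := by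
  set δ : ℝ := η / ((k + 1) * (j + 1)) with hδ
  have hδ0 : 0 < δ := by positivity
  obtain ⟨C0, hC0, hC⟩ := Pool.Agent.Helper112.divisor_bound δ hδ0
  refine ⟨(2 * (C0 * A ^ δ)) ^ j, by positivity, fun N hN => ?_⟩
  have hN' : (1 : ℝ) ≤ (N : ℝ) := by exact_mod_cast hN
  have hN0 : (0 : ℝ) < (N : ℝ) := by linarith
  refine ⟨⌊C0 * (A * (N : ℝ) ^ k) ^ δ⌋₊, ?_, ?_⟩
  · intro n hn hn2
    apply Nat.le_floor
    refine (hC n hn).trans ?_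
    apply mul_le_mul_of_nonneg_left _ hC0.le
    exact Real.rpow_le_rpow (by positivity) hn2 hδ0.le
  · set D : ℕ := ⌊C0 * (A * (N : ℝ) ^ k) ^ δ⌋₊ with hD
    have h1 : (D : ℝ) ≤ C0 * (A * (N : ℝ) ^ k) ^ δ := Nat.floor_le (by positivity)
    have h2 : (A * (N : ℝ) ^ k) ^ δ = A ^ δ * (N : ℝ) ^ (k * δ) := by
      rw [Real.mul_rpow (by positivity) (by positivity), ← Real.rpow_natCast (N : ℝ) k, ← Real.rpow_mul hN0.le]
    have h3 : 2 * (D : ℝ) ≤ 2 * (C0 * A ^ δ) * (N : ℝ) ^ (k * δ) := by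
      rw [h2] at h1
      calc 2 * (D : ℝ) ≤ 2 * (C0 * (A ^ δ * (N : ℝ) ^ (k * δ))) := by linarith
        _ = _ := by ring
    have h4 := pow_le_pow_left₀ (by positivity) h3 j
    refine h4.trans ?_
    rw [mul_pow]
    apply mul_le_mul_of_nonneg_left _ (by positivity)
    rw [← Real.rpow_natCast ((N : ℝ) ^ (k * δ)) j, ← Real.rpow_mul hN0.le]
    apply Real.rpow_le_rpow_of_exponent_le hN'
    rw [hδ]
    have h5 : (k : ℝ) * (η / (((k : ℝ) + 1) * ((j : ℝ) + 1))) * j =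
        η * ((k / (k + 1)) * (j / (j + 1))) := by
      field_simp
    rw [h5]
    have h6 : (k : ℝ) / (k + 1) ≤ 1 := by rw [div_le_one (by positivity)]; linarith
    have h7 : (j : ℝ) / (j + 1) ≤ 1 := by rw [div_le_one (by positivity)]; linarith
    have h8 : (k : ℝ) / (k + 1) * (j / (j + 1)) ≤ 1 := by
      have : (0 : ℝ) ≤ (j : ℝ) / (j + 1) := by positivity
      have : (0 : ℝ) ≤ (k : ℝ) / (k + 1) := by positivity
      nlinarith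
    nlinarith

/-- the moments of order `2 ^ (r + 2) + 2` -/
theorem hua (k : ℕ) (hk : 2 ≤ k) (r : ℕ) (hr : r + 2 ≤ k) (η : ℝ) (hη : 0 < η) :
    ∃ C : ℝ, 0 < C ∧ ∀ N : ℕ, 1 ≤ N →
      (J (2 ^ (r + 1) + 1) k N : ℝ) ≤ C * (N : ℝ) ^ ((2 : ℝ) ^ (r + 2) - r - 1 + η) := by
  induction r generalizing η with
  | zero =>
    obtain ⟨C, hC, h⟩ := six k hk η hη
    refine ⟨C, hC, fun N hN => ?_⟩
    have h1 := h N hN
    have h2 : (2 : ℝ) ^ (0 + 2) - ((0 : ℕ) : ℝ) - 1 + η = 3 + η := by norm_num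
    have h3 : 2 ^ (0 + 1) + 1 = 3 := by norm_num
    rw [h2, h3]
    exact h1
  | succ r ih =>
    obtain ⟨C, hC, h⟩ := ih (by omega) η hη
    set s : ℕ := 2 ^ (r + 1) with hs
    obtain ⟨C', hC', h'⟩ := div_bd ((s : ℝ) + 1) (by positivity) k (r + 2) η hη
    refine ⟨3 ^ (2 ^ (r + 2) - (r + 2) - 1) * ((((r + 2 : ℕ) : ℝ) + k) * 3 ^ (r + 2) * C + C' * k), ?_, ?_⟩
    · have : (0 : ℝ) < k := by
        have : 0 < k := by omega
        exact_mod_cast this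
      positivity
    intro N hN
    have hN' : (1 : ℝ) ≤ (N : ℝ) := by exact_mod_cast hN
    have hN0 : (0 : ℝ) < (N : ℝ) := by linarith
    obtain ⟨D, hD1, hD2⟩ := h' N hN
    have h1 := step s k N r D (by omega) (fun n hn hn2 => hD1 n hn (by exact_mod_cast hn2))
    have h2 : s + 1 + 2 ^ (r + 1) = 2 ^ (r + 1 + 1) + 1 := by
      rw [hs, pow_succ 2 (r + 1)]; ring
    rw [h2] at h1
    refine h1.trans ?_
    have h3 := h N hN
    have h4 : (2 * (N : ℝ) + 1) ≤ 3 * N := by linarith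
    have e2 : (2 : ℝ) ^ (r + 2) = 2 * (s : ℝ) := by
      rw [hs]; push_cast; ring
    have h5 : (2 * (N : ℝ) + 1) ^ (2 ^ (r + 2) - (r + 2) - 1) ≤
        3 ^ (2 ^ (r + 2) - (r + 2) - 1) * (N : ℝ) ^ ((2 : ℝ) ^ (r + 2) - (r + 2) - 1) := by
      have h6 := pow_le_pow_left₀ (by positivity) h4 (2 ^ (r + 2) - (r + 2) - 1)
      refine h6.trans (le_of_eq ?_)
      rw [mul_pow]
      congr 1
      rw [← Real.rpow_natCast]
      congr 1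
      have h7 : r + 2 + 1 ≤ 2 ^ (r + 2) := Nat.lt_two_pow_self
      rw [Nat.cast_sub (by omega), Nat.cast_sub (by omega)]
      push_cast
      ring
    have h6 : (2 * (N : ℝ) + 1) ^ (r + 2) ≤ 3 ^ (r + 2) * (N : ℝ) ^ (r + 2 : ℝ) := by
      have h6 := pow_le_pow_left₀ (by positivity) h4 (r + 2)
      refine h6.trans (le_of_eq ?_)
      rw [mul_pow]
      congr 1
      rw [← Real.rpow_natCast]
      congr 1
      push_cast
      ring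
    have h7 : (N : ℝ) ^ (2 * s + 1) = (N : ℝ) ^ ((2 : ℝ) ^ (r + 2) + 1) := by
      rw [← Real.rpow_natCast]
      congr 1
      push_cast
      rw [e2]
    rw [h7]
    have hk0 : (0 : ℝ) ≤ k := by positivity
    calc (2 * (N : ℝ) + 1) ^ (2 ^ (r + 2) - (r + 2) - 1) *
          ((((r + 2 : ℕ) : ℝ) + k) * (2 * (N : ℝ) + 1) ^ (r + 2) * (J (s + 1) k N : ℝ) +
            (2 * (D : ℝ)) ^ (r + 2) * k * (N : ℝ) ^ ((2 : ℝ) ^ (r + 2) + 1))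
        ≤ (3 ^ (2 ^ (r + 2) - (r + 2) - 1) * (N : ℝ) ^ ((2 : ℝ) ^ (r + 2) - (r + 2) - 1)) *
          ((((r + 2 : ℕ) : ℝ) + k) * (3 ^ (r + 2) * (N : ℝ) ^ (r + 2 : ℝ)) *
            (C * (N : ℝ) ^ ((2 : ℝ) ^ (r + 2) - r - 1 + η)) +
            (C' * (N : ℝ) ^ η) * k * (N : ℝ) ^ ((2 : ℝ) ^ (r + 2) + 1)) := by
          gcongr
      _ = (3 ^ (2 ^ (r + 2) - (r + 2) - 1) * ((((r + 2 : ℕ) : ℝ) + k) * 3 ^ (r + 2) * C)) *
            ((N : ℝ) ^ ((2 : ℝ) ^ (r + 2) - (r + 2) - 1) * (N : ℝ) ^ (r + 2 : ℝ) *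
              (N : ℝ) ^ ((2 : ℝ) ^ (r + 2) - r - 1 + η)) +
          (3 ^ (2 ^ (r + 2) - (r + 2) - 1) * (C' * k)) *
            ((N : ℝ) ^ ((2 : ℝ) ^ (r + 2) - (r + 2) - 1) * (N : ℝ) ^ η * (N : ℝ) ^ ((2 : ℝ) ^ (r + 2) + 1)) := by
          ring
      _ = (3 ^ (2 ^ (r + 2) - (r + 2) - 1) * ((((r + 2 : ℕ) : ℝ) + k) * 3 ^ (r + 2) * C)) *
            (N : ℝ) ^ ((2 : ℝ) ^ (r + 1 + 2) - ((r + 1 : ℕ) : ℝ) - 1 + η) +
          (3 ^ (2 ^ (r + 2) - (r + 2) - 1) * (C' * k)) *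
            (N : ℝ) ^ ((2 : ℝ) ^ (r + 1 + 2) - ((r + 1 : ℕ) : ℝ) - 1 + η) := by
          rw [← Real.rpow_add hN0, ← Real.rpow_add hN0, ← Real.rpow_add hN0, ← Real.rpow_add hN0]
          have g1 : (2 : ℝ) ^ (r + 2) - (r + 2) - 1 + (r + 2 : ℝ) + ((2 : ℝ) ^ (r + 2) - r - 1 + η) =
              (2 : ℝ) ^ (r + 1 + 2) - ((r + 1 : ℕ) : ℝ) - 1 + η := by push_cast; ring
          have g2 : (2 : ℝ) ^ (r + 2) - (r + 2) - 1 + η + ((2 : ℝ) ^ (r + 2) + 1) =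
              (2 : ℝ) ^ (r + 1 + 2) - ((r + 1 : ℕ) : ℝ) - 1 + η := by push_cast; ring
          rw [g1, g2]
      _ = _ := by ring

end Pool.Agent.Helper10K9.MWS
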