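import Pool.Agent.Helper10K9.MWS.Coef
import Pool.Agent.Helper10K9.MWS.Ind
import Pool.Agent.TH181.MX.Fin

/-! # covering numbers and Hausdorff dimension -/

set_option autoImplicit false

open Finset MeasureTheory

namespace Pool.Agent.Helper10K9.MWS

open Pool.Agent.W928.MW (e ev_pow ev_log)
open Pool.Agent.TH181.MW (S_COV_t S_DIMG_t J)

/-- the bound `O(N^κ)` for the sums at the point `t` with the constant `C` -/
def HoldsK (c : ℕ → ℂ) (k : ℕ) (κ C t : ℝ) : Prop :=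
  ∀ N : ℕ, 2 ≤ N → ∀ ξ : ℝ, ‖smc c k N t ξ‖ ≤ C * (N : ℝ) ^ κ

/-- bad leading coefficients at scale `2^i` -/
def BK (c : ℕ → ℂ) (k : ℕ) (κ : ℝ) (j : ℤ) (i : ℕ) : Set ℝ :=
  {t : ℝ | t ∈ Set.Icc (j : ℝ) ((j : ℝ) + 1) ∧ ∃ M : ℕ, ∃ ξ : ℝ, M ≤ 2 ^ i ∧ 2 ^ i ≤ 2 * M ∧
    (M : ℝ) ^ κ < ‖smc c k M t ξ‖}

theorem coverK (c : ℕ → ℂ) (hc : ∀ n, ‖c n‖ ≤ 1) (s k : ℕ) (E κ : ℝ) (hs : 1 ≤ s) (hκ : 0 ≤ κ)
    (hJ : ∀ η : ℝ, 0 < η → ∃ C : ℝ, 0 < C ∧ ∀ N : ℕ, 1 ≤ N → (J s k N : ℝ) ≤ C * (N : ℝ) ^ (E + η))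
    (ε' : ℝ) (hε' : 0 < ε') (j : ℤ) :
    ∃ i0 : ℕ, ∀ i : ℕ, i0 ≤ i → ∃ S : Finset ℝ,
      (S.card : ℝ) ≤ ((2 : ℝ) ^ i) ^ (k + 1 + E - 2 * s * κ + 3 * ε') ∧
      BK c k κ j i ⊆ ⋃ x ∈ S, Set.Icc x (x + ((2 : ℝ) ^ i) ^ (-(k : ℝ))) := by
  obtain ⟨C, hC0, hCJ⟩ := hJ ε' hε'
  have hs0 : (0 : ℝ) < s := by exact_mod_cast hs
  set c1 : ℝ := 2 * (1 + 2 * Real.pi * 2 ^ k) with hc1
  have hc1' : 0 < c1 := by positivity
  obtain ⟨i1, h1⟩ := ev_log (ε' / ((2 * s : ℕ) : ℝ)) (by positivity) 1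
  obtain ⟨i3, h3⟩ := ev_pow ε' hε' (3 * ((s : ℝ) + 1) * C * c1 ^ (2 * s) * ((2 : ℝ) ^ κ) ^ (2 * s))
  refine ⟨i1 + i3, fun i hi => ?_⟩
  have g1 := h1 i (by omega)
  have g3 := h3 i (by omega)
  set X : ℝ := (2 : ℝ) ^ i with hX
  have hX1 : (1 : ℝ) ≤ X := one_le_pow₀ (by norm_num)
  have hX0 : (0 : ℝ) < X := by positivity
  have hNX : (((2 ^ i : ℕ) : ℕ) : ℝ) = X := by push_cast; rfl
  have hlog0 : 0 ≤ Real.log X := Real.log_nonneg hX1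
  set lam0 : ℝ := (X / 2) ^ κ with hlam0
  have hlam0' : 0 < lam0 := by positivity
  set μ : ℝ := lam0 / c1 with hμ
  have hμ0 : 0 < μ := by positivity
  set L : ℝ := 2 * (2 + Real.log X) with hL
  have hL0 : 0 < L := by positivity
  set δ : ℝ := X ^ (-(k : ℝ)) with hδ
  have hδ' : δ = 1 / X ^ k := by rw [hδ, Real.rpow_neg hX0.le, Real.rpow_natCast, one_div]
  have hδ0 : 0 < δ := by positivity
  have hδ1 : δ ≤ 1 := by
    rw [hδ', div_le_one (by positivity)]; exact one_le_pow₀ hX1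
  set F : Set ℝ := {t : ℝ | t ∈ Set.Icc (((j - 1 : ℤ)) : ℝ) (((j + 2 : ℤ)) : ℝ) ∧
    ∃ ξ : ℝ, μ / L ≤ ‖smc c k (2 ^ i) t ξ‖} with hF
  have key2 : ∀ t ∈ BK c k κ j i, ∀ t' : ℝ, |t' - t| ≤ δ → t' ∈ F := by
    rintro t ⟨hx1, M, ξ, hM1, hM2, hlt⟩ t' hxx
    have hxx' := abs_le.mp hxx
    refine ⟨⟨by push_cast; linarith [hx1.1, hxx'.1], by push_cast; linarith [hx1.2, hxx'.2]⟩, ?_⟩
    by_contra hcon
    push Not at hcon
    have h4 : ∀ m : ℕ, m ≤ 2 ^ i → ‖smc c k m t' ξ‖ ≤ μ / 2 := by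
      intro m hm
      have h5 := maxc c k (2 ^ i) m t' (μ / L) Nat.one_le_two_pow hm (fun η => (hcon η).le) ξ
      refine h5.trans (le_of_eq ?_)
      rw [hNX, hL]
      field_simp
    have h5 := shiftc c k (2 ^ i) M t t' ξ (μ / 2) Nat.one_le_two_pow hM1 (by positivity)
      (by rw [hNX, ← hδ', abs_sub_comm]; exact hxx) h4
    have h6 : X / 2 ≤ (M : ℝ) := by
      have : ((2 ^ i : ℕ) : ℝ) ≤ ((2 * M : ℕ) : ℝ) := by exact_mod_cast hM2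
      rw [hNX] at this
      push_cast at this
      linarith
    have h7 : lam0 ≤ (M : ℝ) ^ κ := by
      rw [hlam0]
      exact Real.rpow_le_rpow (by positivity) h6 hκ
    have h8 : (1 + 2 * Real.pi * 2 ^ k) * (μ / 2) = lam0 / 4 := by
      rw [hμ, hc1]; field_simp; ring
    rw [h8] at h5
    linarith
  have h5 := measc c hc s k (2 ^ i) (j - 1) (j + 2) (μ / L) (by omega) (by positivity)
  rw [hNX] at h5
  have hLp : L ^ (2 * s) ≤ X ^ ε' := by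
    have h6 : L ≤ X ^ (ε' / ((2 * s : ℕ) : ℝ)) := by
      rw [one_mul] at g1
      rw [hL]
      linarith
    have h7 : ((2 * s : ℕ) : ℝ) ≠ 0 := by
      have : 0 < ((2 * s : ℕ) : ℝ) := by positivity
      exact this.ne'
    calc L ^ (2 * s) ≤ (X ^ (ε' / ((2 * s : ℕ) : ℝ))) ^ (2 * s) := pow_le_pow_left₀ hL0.le h6 _
      _ = X ^ ε' := by
          rw [← Real.rpow_natCast, ← Real.rpow_mul hX0.le]
          congr 1
          field_simp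
  set V : ℝ := 3 * ((s : ℝ) + 1) * C * (X * X ^ (E + ε') * X ^ ε') / μ ^ (2 * s) with hV
  have h6 : volume F ≤ ENNReal.ofReal V := by
    refine h5.trans (ENNReal.ofReal_le_ofReal ?_)
    have a0 : (((j + 2 : ℤ)) : ℝ) - (((j - 1 : ℤ)) : ℝ) = 3 := by push_cast; ring
    rw [a0, div_pow]
    have b1 : (s : ℝ) * X + 1 ≤ ((s : ℝ) + 1) * X := by nlinarith
    have b2 := hCJ (2 ^ i) Nat.one_le_two_pow
    rw [hNX] at b2
    have b3 : (0 : ℝ) ≤ (J s k (2 ^ i) : ℝ) := by positivity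
    rw [div_div_eq_mul_div, hV]
    apply div_le_div_of_nonneg_right _ (by positivity)
    calc ((s : ℝ) * X + 1) * (3 * (J s k (2 ^ i) : ℝ)) * L ^ (2 * s)
        ≤ (((s : ℝ) + 1) * X) * (3 * (C * X ^ (E + ε'))) * X ^ ε' := by
          gcongr
      _ = _ := by ring
  obtain ⟨S, hS1, hS2⟩ := S_COV_t (BK c k κ j i) F δ V (j : ℝ) ((j : ℝ) + 1) hδ0 (by positivity)
    (fun x hx => hx.1) key2 h6
  refine ⟨S, hS1.trans ?_, hS2⟩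
  have e1 : μ ^ (2 * s) = X ^ (2 * s * κ) / (c1 ^ (2 * s) * ((2 : ℝ) ^ κ) ^ (2 * s)) := by
    rw [hμ, div_pow, hlam0, Real.div_rpow hX0.le (by norm_num), div_pow,
      ← Real.rpow_natCast (X ^ κ) (2 * s), ← Real.rpow_mul hX0.le]
    have f1 : κ * ((2 * s : ℕ) : ℝ) = 2 * s * κ := by push_cast; ring
    rw [f1, div_div, mul_comm (((2 : ℝ) ^ κ) ^ (2 * s))]
  have h8 : V / δ = (3 * ((s : ℝ) + 1) * C * c1 ^ (2 * s) * ((2 : ℝ) ^ κ) ^ (2 * s)) *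
      X ^ (k + 1 + E - 2 * s * κ + 2 * ε') := by
    have e3 : X ^ ((k : ℝ) + 1 + E - 2 * s * κ + 2 * ε') =
        (X * X ^ (E + ε') * X ^ ε') * X ^ k / X ^ (2 * s * κ) := by
      have f1 : X * X ^ (E + ε') * X ^ ε' * X ^ k = X ^ (1 + (E + ε') + ε' + (k : ℝ)) := by
        rw [Real.rpow_add hX0 (1 + (E + ε') + ε') (k : ℝ), Real.rpow_add hX0 (1 + (E + ε')) ε',
          Real.rpow_add hX0 1 (E + ε'), Real.rpow_one, Real.rpow_natCast]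
      rw [f1, ← Real.rpow_sub hX0]
      congr 1
      ring
    rw [hV, e1, e3, hδ']
    field_simp
  rw [h8]
  have h9 : X ^ ((k : ℝ) + 1 + E - 2 * s * κ + 3 * ε') = X ^ ε' * X ^ ((k : ℝ) + 1 + E - 2 * s * κ + 2 * ε') := by
    rw [← Real.rpow_add hX0]
    congr 1
    ring
  rw [h9]
  exact mul_le_mul_of_nonneg_right g3 (by positivity)

theorem bad_subK (c : ℕ → ℂ) (hc : ∀ n, ‖c n‖ ≤ 1) (k : ℕ) (κ : ℝ) (hκ : 0 ≤ κ) (t : ℝ)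
    (hx : ¬ ∃ C : ℝ, HoldsK c k κ C t) : ∀ i1 : ℕ, ∃ i : ℕ, i1 ≤ i ∧ t ∈ BK c k κ ⌊t⌋ i := by
  intro i1
  by_contra hcon
  push Not at hcon
  apply hx
  refine ⟨(2 : ℝ) ^ i1 + 1, ?_⟩
  intro N hN2' ξ
  have hN : 1 ≤ N := by omega
  have hN' : (1 : ℝ) ≤ (N : ℝ) := by exact_mod_cast hN
  have h1 : 1 ≤ (N : ℝ) ^ κ := Real.one_le_rpow hN' hκ
  have hp : (0 : ℝ) < (2 : ℝ) ^ i1 := by positivity
  rcases le_total N (2 ^ i1) with hN2 | hN2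
  · have h4 : (N : ℝ) ≤ (2 : ℝ) ^ i1 := by exact_mod_cast hN2
    refine (smc_le c hc k N t ξ).trans ?_
    nlinarith
  · obtain ⟨i, hi1, hi2⟩ : ∃ i : ℕ, N ≤ 2 ^ i ∧ 2 ^ i ≤ 2 * N := by
      refine ⟨Nat.log 2 N + 1, (Nat.lt_pow_succ_log_self (by norm_num) N).le, ?_⟩
      have := Nat.pow_log_le_self 2 (show N ≠ 0 by omega)
      rw [pow_succ]
      omega
    have hii : i1 ≤ i := by
      have : 2 ^ i1 ≤ 2 ^ i := hN2.trans hi1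
      exact (Nat.pow_le_pow_iff_right (by norm_num)).mp this
    have h5 := hcon i hii
    have h6 : ‖smc c k N t ξ‖ ≤ (N : ℝ) ^ κ := by
      by_contra h7
      push Not at h7
      apply h5
      exact ⟨⟨Int.floor_le t, (Int.lt_floor_add_one t).le⟩, N, ξ, hi1, hi2, h7⟩
    nlinarith

theorem dim_genK (c : ℕ → ℂ) (hc : ∀ n, ‖c n‖ ≤ 1) (s k : ℕ) (E κ : ℝ) (hs : 1 ≤ s) (hk : 1 ≤ k) (hκ : 0 ≤ κ)
    (hJ : ∀ η : ℝ, 0 < η → ∃ C : ℝ, 0 < C ∧ ∀ N : ℕ, 1 ≤ N → (J s k N : ℝ) ≤ C * (N : ℝ) ^ (E + η)) :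
    dimH {t : ℝ | ¬ ∃ C : ℝ, HoldsK c k κ C t} ≤ ENNReal.ofReal (((k : ℝ) + 1 + E - 2 * s * κ) / k) := by
  set A : ℝ := (k : ℝ) + 1 + E - 2 * s * κ with hA
  have hk0 : (0 : ℝ) < k := by exact_mod_cast hk
  have hsub : {t : ℝ | ¬ ∃ C : ℝ, HoldsK c k κ C t} ⊆
      ⋃ j : ℤ, {x : ℝ | ∀ i1 : ℕ, ∃ i : ℕ, i1 ≤ i ∧ x ∈ BK c k κ j i} := by
    intro x hx
    rw [Set.mem_iUnion]
    exact ⟨⌊x⌋, bad_subK c hc k κ hκ x hx⟩
  have hfin : ENNReal.ofReal (max (A / k) 0) ≤ ENNReal.ofReal (A / k) := by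
    rw [ENNReal.ofReal_max, ENNReal.ofReal_zero, max_eq_left zero_le]
  refine le_trans ?_ hfin
  refine (dimH_mono hsub).trans ?_
  rw [dimH_iUnion]
  apply iSup_le
  intro j
  apply ENNReal.le_of_forall_pos_le_add
  intro ρ hρ _
  have hρ' : (0 : ℝ) < (ρ : ℝ) := by exact_mod_cast hρ
  set D : ℝ := max (A / k) 0 + ρ with hD
  have hD0 : 0 < D := by
    have := le_max_right (A / k) 0
    rw [hD]; linarith
  set ε' : ℝ := ρ * k / 6 with hε'def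
  have hε' : 0 < ε' := by positivity
  have h1 := S_DIMG_t (A + 3 * ε') k D (BK c k κ j) hk0 hD0
    (by
      have h2 := le_max_left (A / k) 0
      have h3 : A ≤ k * max (A / k) 0 := by
        calc A = k * (A / k) := by field_simp
          _ ≤ _ := mul_le_mul_of_nonneg_left h2 hk0.le
      have h4 : (0 : ℝ) < k * ρ := by positivity
      rw [hε'def, hD]
      nlinarith)
    (coverK c hc s k E κ hs hκ hJ ε' hε' j)
  refine h1.trans (le_of_eq ?_)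
  rw [hD, ENNReal.ofReal_add (le_max_right _ _) hρ'.le, ENNReal.ofReal_coe_nnreal]

/-- the dimension of the set of `t` at which the sums are not `O(N^κ)` uniformly in `ξ` -/
theorem dim_kappa (c : ℕ → ℂ) (hc : ∀ n, ‖c n‖ ≤ 1) (k j : ℕ) (hj : 2 ≤ j) (hjk : j ≤ k) (κ : ℝ) (hκ : 0 ≤ κ) :
    dimH {t : ℝ | ¬ ∃ C : ℝ, HoldsK c k κ C t} ≤
      ENNReal.ofReal (1 - ((j : ℝ) - (2 ^ j + 2) * (1 - κ)) / k) := by
  obtain ⟨r, rfl⟩ : ∃ r, j = r + 2 := ⟨j - 2, by omega⟩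
  have hk : 2 ≤ k := by omega
  have hk0 : (k : ℝ) ≠ 0 := by
    have : 0 < k := by omega
    exact_mod_cast this.ne'
  have h1 := dim_genK c hc (2 ^ (r + 1) + 1) k ((2 : ℝ) ^ (r + 2) - r - 1) κ (Nat.succ_le_succ (Nat.zero_le _)) (by omega) hκ
    (fun η hη => hua k hk r hjk η hη)
  refine h1.trans (le_of_eq ?_)
  congr 1
  push_cast
  field_simp
  ring

end Pool.Agent.Helper10K9.MWS
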