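import Mathlib

/-!
# Mass distribution principle on the line
-/

set_option autoImplicit false

namespace Pool.Agent.Helper10K9.MWS

open MeasureTheory Filter Topology
open scoped ENNReal NNReal

/-- A measure with `μ [x, x + h] ≤ B h^s` vanishes on the sets of dimension less than `s`. -/
theorem mdp (μ : Measure ℝ) (s B : ℝ) (hs : 0 < s)
    (hμ : ∀ x h : ℝ, 0 < h → h ≤ 1 → μ (Set.Icc x (x + h)) ≤ ENNReal.ofReal (B * h ^ s))
    (E : Set ℝ) (hE : dimH E < ENNReal.ofReal s) : μ E = 0 := by
  have hH : Measure.hausdorffMeasure s E = 0 := by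
    have h1 := hausdorffMeasure_of_dimH_lt (s := E) (d := s.toNNReal) hE
    rwa [Real.coe_toNNReal s hs.le] at h1
  set B' : ℝ := |B| + 1 with hB'
  have hB0 : 0 < B' := by positivity
  have hS : ∀ S : Set ℝ, Metric.ediam S ≤ 1 → μ S ≤ ENNReal.ofReal B' * Metric.ediam S ^ s := by
    intro S hS
    rcases S.eq_empty_or_nonempty with rfl | hne
    · simp
    have hb : Bornology.IsBounded S := by
      by_contra hb
      rw [Metric.ediam_of_unbounded hb] at hS
      exact absurd (top_le_iff.1 hS) ENNReal.one_ne_top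
    have hd := Real.ediam_eq hb
    set h : ℝ := sSup S - sInf S with hh
    have h0 : 0 ≤ h := sub_nonneg.2 (Real.sInf_le_sSup S hb.bddBelow hb.bddAbove)
    have h1 : h ≤ 1 := by
      rw [hd, ← ENNReal.ofReal_one] at hS
      exact (ENNReal.ofReal_le_ofReal_iff zero_le_one).1 hS
    have hsub : ∀ h' : ℝ, h ≤ h' → S ⊆ Set.Icc (sInf S) (sInf S + h') := by
      intro h' hh' x hx
      have := hb.subset_Icc_sInf_sSup hx
      refine ⟨this.1, this.2.trans ?_⟩
      rw [hh] at hh'
      linarith
    have hbd : ∀ n : ℕ, μ S ≤ ENNReal.ofReal (B' * (max h (1 / ((n : ℝ) + 1))) ^ s) := by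
      intro n
      have h2 : (0 : ℝ) < 1 / ((n : ℝ) + 1) := by positivity
      have h3 : (1 : ℝ) / ((n : ℝ) + 1) ≤ 1 := by
        rw [div_le_one (by positivity)]
        have : (0 : ℝ) ≤ n := Nat.cast_nonneg n
        linarith
      have h4 := hμ (sInf S) (max h (1 / ((n : ℝ) + 1))) (lt_max_of_lt_right h2) (max_le h1 h3)
      refine (measure_mono (hsub _ (le_max_left _ _))).trans (h4.trans ?_)
      apply ENNReal.ofReal_le_ofReal
      apply mul_le_mul_of_nonneg_right _ (by positivity)
      rw [hB']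
      have := le_abs_self B
      linarith
    have hlim : Tendsto (fun n : ℕ => ENNReal.ofReal (B' * (max h (1 / ((n : ℝ) + 1))) ^ s)) atTop
        (𝓝 (ENNReal.ofReal (B' * h ^ s))) := by
      apply ENNReal.tendsto_ofReal
      apply Tendsto.const_mul
      have h2 : Tendsto (fun n : ℕ => max h (1 / ((n : ℝ) + 1))) atTop (𝓝 (max h 0)) :=
        tendsto_const_nhds.max tendsto_one_div_add_atTop_nhds_zero_nat
      rw [max_eq_left h0] at h2
      exact h2.rpow_const (Or.inr hs.le)
    have h2 := ge_of_tendsto' hlim hbd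
    rw [hd, ENNReal.ofReal_rpow_of_nonneg h0 hs.le, ← ENNReal.ofReal_mul hB0.le]
    exact h2
  have hν : (ENNReal.ofReal B')⁻¹ • μ ≤ Measure.hausdorffMeasure s := by
    apply Measure.le_hausdorffMeasure s _ 1 one_pos
    intro S hS1
    rw [Measure.smul_apply, smul_eq_mul]
    have h3 : ENNReal.ofReal B' ≠ 0 := by
      rw [Ne, ENNReal.ofReal_eq_zero]
      linarith
    calc (ENNReal.ofReal B')⁻¹ * μ S ≤
        (ENNReal.ofReal B')⁻¹ * (ENNReal.ofReal B' * Metric.ediam S ^ s) := by
          gcongr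
          exact hS S hS1
      _ = Metric.ediam S ^ s := by
          rw [← mul_assoc, ENNReal.inv_mul_cancel h3 ENNReal.ofReal_ne_top, one_mul]
  have h5 : ((ENNReal.ofReal B')⁻¹ • μ) E = 0 := le_antisymm ((hν E).trans hH.le) zero_le
  rw [Measure.smul_apply, smul_eq_mul, mul_eq_zero] at h5
  rcases h5 with h5 | h5
  · rw [ENNReal.inv_eq_zero] at h5
    exact absurd h5 ENNReal.ofReal_ne_top
  · exact h5

end Pool.Agent.Helper10K9.MWS
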