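import Pool.Agent.TH181.MW.Mom
import Pool.Agent.Helper112.Arith
import Pool.Agent.W225.MWDIO

/-! # the sixth moment: three summands -/

set_option autoImplicit false

open Finset

namespace Pool.Agent.Helper10K9.MWS

open Pool.Agent.TH181.MW (tup J)

theorem add_pow_le' (x y k : ℕ) (hk : 1 ≤ k) : x ^ k + y ^ k ≤ (x + y) ^ k := by
  induction k with
  | zero => omega
  | succ n ih =>
    rcases Nat.eq_zero_or_pos n with h | h
    · subst h; simp
    · have h1 := ih h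
      have h2 : (x + y) ^ (n + 1) = (x + y) ^ n * (x + y) := pow_succ _ _
      have h3 : (x ^ n + y ^ n) * (x + y) ≤ (x + y) ^ n * (x + y) := Nat.mul_le_mul_right _ h1
      have h4 : (x ^ n + y ^ n) * (x + y) = x ^ (n + 1) + y ^ (n + 1) + (x ^ n * y + y ^ n * x) := by ring
      rw [h2]
      have h5 : 0 ≤ x ^ n * y + y ^ n * x := Nat.zero_le _
      omega

theorem add_pow_lt' (x y k : ℕ) (hk : 2 ≤ k) (hx : 1 ≤ x) (hy : 1 ≤ y) : x ^ k + y ^ k < (x + y) ^ k := by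
  obtain ⟨n, rfl⟩ : ∃ n, k = n + 1 := ⟨k - 1, by omega⟩
  have h1 := add_pow_le' x y n (by omega)
  have h2 : (x + y) ^ (n + 1) = (x + y) ^ n * (x + y) := pow_succ _ _
  have h3 : (x ^ n + y ^ n) * (x + y) ≤ (x + y) ^ n * (x + y) := Nat.mul_le_mul_right _ h1
  have h4 : (x ^ n + y ^ n) * (x + y) = x ^ (n + 1) + y ^ (n + 1) + (x ^ n * y + y ^ n * x) := by ring
  have h5 : 0 < x ^ n * y := by positivity
  rw [h2]
  omega

/-- the fourth term of the first half -/
def mm (v : Fin 3 → ℕ) : ℤ := (v 0 : ℤ) + v 1 - v 2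

/-- the defect -/
def dd (k : ℕ) (v : Fin 3 → ℕ) : ℤ := (v 0 : ℤ) ^ k + (v 1 : ℤ) ^ k - (v 2 : ℤ) ^ k - mm v ^ k

theorem dd_ne (k : ℕ) (hk : 2 ≤ k) (v : Fin 3 → ℕ) (h0 : 1 ≤ v 0) (h1 : 1 ≤ v 1)
    (hac : v 0 ≠ v 2) (hbc : v 1 ≠ v 2) : dd k v ≠ 0 := by
  intro hd
  rcases le_or_gt 0 (mm v) with hm | hm
  · obtain ⟨m, hm'⟩ := Int.eq_ofNat_of_zero_le hm
    have hs : v 0 + v 1 = v 2 + m := by
      unfold mm at hm'
      omega
    have h2 := Pool.Agent.W225.MWD.t k (v 0) (v 1) (v 2) m hk hs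
    have h3 : (v 0 : ℝ) ^ k + (v 1 : ℝ) ^ k - (v 2 : ℝ) ^ k - (m : ℝ) ^ k = 0 := by
      unfold dd at hd
      rw [hm'] at hd
      exact_mod_cast hd
    rw [h3, abs_zero] at h2
    have h4 : 0 < |(v 0 : ℝ) - (v 2 : ℝ)| := by
      rw [abs_pos, sub_ne_zero]
      exact_mod_cast hac
    have h5 : 0 < |(v 0 : ℝ) - (m : ℝ)| := by
      rw [abs_pos, sub_ne_zero]
      intro h
      have : v 0 = m := by exact_mod_cast h
      omega
    have h6 : (0 : ℝ) < max (max (v 0 : ℝ) (v 1 : ℝ)) (max (v 2 : ℝ) (m : ℝ)) := by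
      have : (0 : ℝ) < (v 0 : ℝ) := by exact_mod_cast h0
      exact lt_of_lt_of_le this ((le_max_left _ _).trans (le_max_left _ _))
    have h7 : 0 < |(v 0 : ℝ) - (v 2 : ℝ)| * |(v 0 : ℝ) - (m : ℝ)| *
      (max (max (v 0 : ℝ) (v 1 : ℝ)) (max (v 2 : ℝ) (m : ℝ))) ^ (k - 2) := by positivity
    linarith
  · obtain ⟨r, hr⟩ := Int.eq_ofNat_of_zero_le (show 0 ≤ - mm v by omega)
    have hs : v 2 = (v 0 + v 1) + r := by
      unfold mm at hr
      omega
    have h2 := add_pow_le' (v 0 + v 1) r k (by omega)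
    have h3 := add_pow_lt' (v 0) (v 1) k hk h0 h1
    rw [← hs] at h2
    have h4 : |mm v ^ k| = (r : ℤ) ^ k := by
      rw [abs_pow]
      congr 1
      rw [abs_of_neg hm]
      exact hr
    have h5 := neg_abs_le (mm v ^ k)
    rw [h4] at h5
    unfold dd at hd
    have h6 : ((v 0 : ℤ) ^ k + (v 1 : ℤ) ^ k) < ((v 0 : ℤ) + v 1) ^ k := by exact_mod_cast h3
    have h7 : ((v 0 : ℤ) + v 1) ^ k + (r : ℤ) ^ k ≤ (v 2 : ℤ) ^ k := by exact_mod_cast h2
    omega

theorem dvd_one' (k : ℕ) (v : Fin 3 → ℕ) : ((v 0 : ℤ) - v 2) ∣ dd k v := by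
  have h1 : (v 0 : ℤ) - v 2 ∣ (v 0 : ℤ) ^ k - (v 2 : ℤ) ^ k := sub_dvd_pow_sub_pow _ _ k
  have h2 : mm v - v 1 ∣ mm v ^ k - (v 1 : ℤ) ^ k := sub_dvd_pow_sub_pow _ _ k
  have h3 : mm v - v 1 = (v 0 : ℤ) - v 2 := by unfold mm; ring
  rw [h3] at h2
  have h4 := dvd_sub h1 h2
  have h5 : (v 0 : ℤ) ^ k - (v 2 : ℤ) ^ k - (mm v ^ k - (v 1 : ℤ) ^ k) = dd k v := by unfold dd; ring
  rwa [h5] at h4

theorem dvd_two' (k : ℕ) (v : Fin 3 → ℕ) : ((v 1 : ℤ) - v 2) ∣ dd k v := by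
  have h1 : (v 1 : ℤ) - v 2 ∣ (v 1 : ℤ) ^ k - (v 2 : ℤ) ^ k := sub_dvd_pow_sub_pow _ _ k
  have h2 : mm v - v 0 ∣ mm v ^ k - (v 0 : ℤ) ^ k := sub_dvd_pow_sub_pow _ _ k
  have h3 : mm v - v 0 = (v 1 : ℤ) - v 2 := by unfold mm; ring
  rw [h3] at h2
  have h4 := dvd_sub h1 h2
  have h5 : (v 1 : ℤ) ^ k - (v 2 : ℤ) ^ k - (mm v ^ k - (v 0 : ℤ) ^ k) = dd k v := by unfold dd; ring
  rwa [h5] at h4

/-- positive and negative divisors -/
def divs (m : ℤ) : Finset ℤ := (m.natAbs.divisors).image (fun d : ℕ => (d : ℤ)) ∪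
    (m.natAbs.divisors).image (fun d : ℕ => -(d : ℤ))

theorem divs_card (m : ℤ) : (divs m).card ≤ 2 * m.natAbs.divisors.card := by
  have h2 := Finset.card_union_le ((m.natAbs.divisors).image (fun d : ℕ => (d : ℤ)))
    ((m.natAbs.divisors).image (fun d : ℕ => -(d : ℤ)))
  have h3 : ((m.natAbs.divisors).image (fun d : ℕ => (d : ℤ))).card ≤ m.natAbs.divisors.card :=
    Finset.card_image_le
  have h4 : ((m.natAbs.divisors).image (fun d : ℕ => -(d : ℤ))).card ≤ m.natAbs.divisors.card :=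
    Finset.card_image_le
  unfold divs
  omega

theorem mem_divs (m h : ℤ) (hm : m ≠ 0) (hd : h ∣ m) : h ∈ divs m := by
  have h6 : h.natAbs ∈ m.natAbs.divisors := by
    rw [Nat.mem_divisors]
    exact ⟨Int.natAbs_dvd_natAbs.mpr hd, Int.natAbs_ne_zero.mpr hm⟩
  unfold divs
  rw [Finset.mem_union, Finset.mem_image, Finset.mem_image]
  rcases le_total 0 h with h0 | h0
  · left; exact ⟨_, h6, by omega⟩
  · right; exact ⟨_, h6, by omega⟩

theorem fib_ne (k N : ℕ) (m d : ℤ) (hd : d ≠ 0) :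
    ((tup 3 N).filter (fun w => mm w = m ∧ dd k w = d)).card ≤ (2 * d.natAbs.divisors.card) ^ 2 := by
  have h1 : ((tup 3 N).filter (fun w => mm w = m ∧ dd k w = d)).card ≤ ((divs d) ×ˢ (divs d)).card := by
    apply Finset.card_le_card_of_injOn (fun w => ((w 0 : ℤ) - w 2, (w 1 : ℤ) - w 2))
    · intro w hw
      rw [Finset.mem_coe, Finset.mem_filter] at hw
      obtain ⟨_, _, h3⟩ := hw
      rw [Finset.mem_coe, Finset.mem_product]
      exact ⟨mem_divs _ _ hd (h3 ▸ dvd_one' k w), mem_divs _ _ hd (h3 ▸ dvd_two' k w)⟩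
    · intro w hw w' hw' h
      rw [Finset.mem_coe, Finset.mem_filter] at hw hw'
      obtain ⟨_, h2, _⟩ := hw
      obtain ⟨_, h2', _⟩ := hw'
      simp only [Prod.mk.injEq] at h
      unfold mm at h2 h2'
      funext i
      fin_cases i
      · simp only [Fin.zero_eta]; omega
      · simp only [Fin.mk_one]; omega
      · simp only [Fin.reduceFinMk]; omega
  refine h1.trans ?_
  rw [Finset.card_product, sq]
  exact Nat.mul_le_mul (divs_card d) (divs_card d)

theorem mem_tup3 (N : ℕ) (w : Fin 3 → ℕ) (hw : w ∈ tup 3 N) (i : Fin 3) : 1 ≤ w i ∧ w i ≤ N := by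
  unfold Pool.Agent.TH181.MW.tup at hw
  rw [Fintype.mem_piFinset] at hw
  exact Finset.mem_Icc.mp (hw i)

theorem zero_cases (k N : ℕ) (hk : 2 ≤ k) (w : Fin 3 → ℕ) (hw : w ∈ tup 3 N) (h : dd k w = 0) :
    w 0 = w 2 ∨ w 1 = w 2 := by
  by_contra hcon
  push Not at hcon
  exact dd_ne k hk w (mem_tup3 N w hw 0).1 (mem_tup3 N w hw 1).1 hcon.1 hcon.2 h

theorem fib_zero (k N : ℕ) (hk : 2 ≤ k) (m : ℤ) :
    ((tup 3 N).filter (fun w => mm w = m ∧ dd k w = 0)).card ≤ 2 * N := by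
  classical
  have h1 : ((tup 3 N).filter (fun w => mm w = m ∧ dd k w = 0)).card ≤
      ((univ : Finset (Fin 2)) ×ˢ (Icc 1 N)).card := by
    apply Finset.card_le_card_of_injOn (fun w => (if w 0 = w 2 then (0 : Fin 2) else 1, w 2))
    · intro w hw
      rw [Finset.mem_coe, Finset.mem_filter] at hw
      rw [Finset.mem_coe, Finset.mem_product]
      exact ⟨Finset.mem_univ _, Finset.mem_Icc.mpr (mem_tup3 N w hw.1 2)⟩
    · intro w hw w' hw' h
      rw [Finset.mem_coe, Finset.mem_filter] at hw hw'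
      obtain ⟨h1, h2, h3⟩ := hw
      obtain ⟨h1', h2', h3'⟩ := hw'
      have h4 := zero_cases k N hk w h1 h3
      have h4' := zero_cases k N hk w' h1' h3'
      simp only [Prod.mk.injEq] at h
      unfold mm at h2 h2'
      obtain ⟨h5, h6⟩ := h
      have h7 : w 0 = w 2 ↔ w' 0 = w' 2 := by
        by_cases a : w 0 = w 2 <;> by_cases b : w' 0 = w' 2 <;> simp [a, b] at h5 ⊢
      funext i
      fin_cases i
      · simp only [Fin.zero_eta]
        by_cases a : w 0 = w 2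
        · have := h7.mp a; omega
        · have : ¬ w' 0 = w' 2 := fun hb => a (h7.mpr hb)
          omega
      · simp only [Fin.mk_one]
        by_cases a : w 0 = w 2
        · have := h7.mp a; omega
        · have : ¬ w' 0 = w' 2 := fun hb => a (h7.mpr hb)
          omega
      · simp only [Fin.reduceFinMk]; omega
  refine h1.trans (le_of_eq ?_)
  rw [Finset.card_product, Finset.card_univ, Fintype.card_fin, Nat.card_Icc, Nat.add_sub_cancel]

theorem zero_card (k N : ℕ) (hk : 2 ≤ k) : ((tup 3 N).filter (fun w => dd k w = 0)).card ≤ 2 * N ^ 2 := by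
  classical
  have h1 : ((tup 3 N).filter (fun w => dd k w = 0)).card ≤
      ((univ : Finset (Fin 2)) ×ˢ ((Icc 1 N) ×ˢ (Icc 1 N))).card := by
    apply Finset.card_le_card_of_injOn (fun w => (if w 0 = w 2 then (0 : Fin 2) else 1, w 2,
      if w 0 = w 2 then w 1 else w 0))
    · intro w hw
      rw [Finset.mem_coe, Finset.mem_filter] at hw
      rw [Finset.mem_coe, Finset.mem_product, Finset.mem_product]
      refine ⟨Finset.mem_univ _, Finset.mem_Icc.mpr (mem_tup3 N w hw.1 2), ?_⟩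
      simp only
      split_ifs
      · exact Finset.mem_Icc.mpr (mem_tup3 N w hw.1 1)
      · exact Finset.mem_Icc.mpr (mem_tup3 N w hw.1 0)
    · intro w hw w' hw' h
      rw [Finset.mem_coe, Finset.mem_filter] at hw hw'
      obtain ⟨h1, h3⟩ := hw
      obtain ⟨h1', h3'⟩ := hw'
      have h4 := zero_cases k N hk w h1 h3
      have h4' := zero_cases k N hk w' h1' h3'
      simp only [Prod.mk.injEq] at h
      obtain ⟨h5, h6, h8⟩ := h
      have h7 : w 0 = w 2 ↔ w' 0 = w' 2 := by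
        by_cases a : w 0 = w 2 <;> by_cases b : w' 0 = w' 2 <;> simp [a, b] at h5 ⊢
      by_cases a : w 0 = w 2
      · have b := h7.mp a
        rw [if_pos a, if_pos b] at h8
        funext i
        fin_cases i
        · simp only [Fin.zero_eta]; omega
        · simp only [Fin.mk_one]; omega
        · simp only [Fin.reduceFinMk]; omega
      · have b : ¬ w' 0 = w' 2 := fun hb => a (h7.mpr hb)
        rw [if_neg a, if_neg b] at h8
        funext i
        fin_cases i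
        · simp only [Fin.zero_eta]; omega
        · simp only [Fin.mk_one]; omega
        · simp only [Fin.reduceFinMk]; omega
  refine h1.trans (le_of_eq ?_)
  rw [Finset.card_product, Finset.card_product, Finset.card_univ, Fintype.card_fin, Nat.card_Icc,
    Nat.add_sub_cancel]
  ring

theorem dd_abs (k N : ℕ) (w : Fin 3 → ℕ) (hw : w ∈ tup 3 N) : (dd k w).natAbs ≤ (3 + 2 ^ k) * N ^ k := by
  have h0 := mem_tup3 N w hw 0
  have h1 := mem_tup3 N w hw 1
  have h2 := mem_tup3 N w hw 2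
  have a0 : (w 0 : ℤ) ^ k ≤ (N : ℤ) ^ k := by exact_mod_cast Nat.pow_le_pow_left h0.2 k
  have a1 : (w 1 : ℤ) ^ k ≤ (N : ℤ) ^ k := by exact_mod_cast Nat.pow_le_pow_left h1.2 k
  have a2 : (w 2 : ℤ) ^ k ≤ (N : ℤ) ^ k := by exact_mod_cast Nat.pow_le_pow_left h2.2 k
  have b0 : (0 : ℤ) ≤ (w 0 : ℤ) ^ k := by positivity
  have b1 : (0 : ℤ) ≤ (w 1 : ℤ) ^ k := by positivity
  have b2 : (0 : ℤ) ≤ (w 2 : ℤ) ^ k := by positivity
  have a3 : |mm w ^ k| ≤ (2 * (N : ℤ)) ^ k := by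
    rw [abs_pow]
    apply pow_le_pow_left₀ (abs_nonneg _)
    rw [abs_le]
    unfold mm
    constructor <;> omega
  have a4 := abs_le.mp a3
  have a5 : (2 * (N : ℤ)) ^ k = 2 ^ k * (N : ℤ) ^ k := mul_pow _ _ _
  have a6 : |dd k w| ≤ (3 + 2 ^ k) * (N : ℤ) ^ k := by
    rw [abs_le]
    unfold dd
    constructor <;> nlinarith
  have a7 : (((dd k w).natAbs : ℕ) : ℤ) ≤ (((3 + 2 ^ k) * N ^ k : ℕ) : ℤ) := by
    rw [Int.natCast_natAbs]
    push_cast
    exact a6
  exact_mod_cast a7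

/-- rearranged system -/
def RR (k N : ℕ) : Finset ((Fin 3 → ℕ) × (Fin 3 → ℕ)) :=
  ((tup 3 N) ×ˢ (tup 3 N)).filter (fun z => mm z.2 = mm z.1 ∧ dd k z.2 = dd k z.1)

theorem J_le_RR (k N : ℕ) : J 3 k N ≤ (RR k N).card := by
  unfold Pool.Agent.TH181.MW.J RR
  apply Finset.card_le_card_of_injOn (fun z => (![z.1 0, z.1 1, z.2 0], ![z.2 1, z.2 2, z.1 2]))
  · intro z hz
    rw [Finset.mem_coe, Finset.mem_filter, Finset.mem_product] at hz
    obtain ⟨⟨h1, h2⟩, h3, h4⟩ := hz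
    rw [Fin.sum_univ_three, Fin.sum_univ_three] at h3 h4
    rw [Finset.mem_coe, Finset.mem_filter, Finset.mem_product]
    have hm : (z.2 1 : ℤ) + z.2 2 - z.1 2 = (z.1 0 : ℤ) + z.1 1 - z.2 0 := by omega
    have h4' : (z.1 0 : ℤ) ^ k + (z.1 1 : ℤ) ^ k + (z.1 2 : ℤ) ^ k =
        (z.2 0 : ℤ) ^ k + (z.2 1 : ℤ) ^ k + (z.2 2 : ℤ) ^ k := by exact_mod_cast h4
    refine ⟨⟨?_, ?_⟩, ?_, ?_⟩
    · unfold Pool.Agent.TH181.MW.tup
      rw [Fintype.mem_piFinset]
      intro i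
      rw [Finset.mem_Icc]
      fin_cases i
      · exact mem_tup3 N _ h1 0
      · exact mem_tup3 N _ h1 1
      · exact mem_tup3 N _ h2 0
    · unfold Pool.Agent.TH181.MW.tup
      rw [Fintype.mem_piFinset]
      intro i
      rw [Finset.mem_Icc]
      fin_cases i
      · exact mem_tup3 N _ h2 1
      · exact mem_tup3 N _ h2 2
      · exact mem_tup3 N _ h1 2
    · simp only [mm, Matrix.cons_val]
      exact hm
    · simp only [dd, mm, Matrix.cons_val]
      rw [hm]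
      linarith
  · intro z _ z' _ h
    simp only [Prod.mk.injEq] at h
    obtain ⟨h1, h2⟩ := h
    have a0 := congrFun h1 0
    have a1 := congrFun h1 1
    have a2 := congrFun h1 2
    have b0 := congrFun h2 0
    have b1 := congrFun h2 1
    have b2 := congrFun h2 2
    simp only [Matrix.cons_val] at a0 a1 a2 b0 b1 b2
    apply Prod.ext
    · funext i
      fin_cases i
      · exact a0
      · exact a1
      · exact b2
    · funext i
      fin_cases i
      · exact a2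
      · exact b0
      · exact b1

theorem RR_le (k N D : ℕ) (hk : 2 ≤ k)
    (hD : ∀ n : ℕ, 1 ≤ n → n ≤ (3 + 2 ^ k) * N ^ k → n.divisors.card ≤ D) :
    (RR k N).card ≤ N ^ 3 * (2 * D) ^ 2 + 4 * N ^ 3 := by
  classical
  have h1 : (RR k N).card = ∑ v ∈ tup 3 N, ((tup 3 N).filter (fun w => mm w = mm v ∧ dd k w = dd k v)).card := by
    unfold RR
    rw [Finset.card_filter, Finset.sum_product]
    apply Finset.sum_congr rfl
    intro v _
    rw [Finset.card_filter]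
  rw [h1, ← Finset.sum_filter_add_sum_filter_not (tup 3 N) (fun v => ¬ dd k v = 0)]
  apply Nat.add_le_add
  · calc ∑ v ∈ (tup 3 N).filter (fun v => ¬ dd k v = 0),
        ((tup 3 N).filter (fun w => mm w = mm v ∧ dd k w = dd k v)).card
        ≤ ∑ _v ∈ (tup 3 N).filter (fun v => ¬ dd k v = 0), (2 * D) ^ 2 := by
          apply Finset.sum_le_sum
          intro v hv
          rw [Finset.mem_filter] at hv
          refine (fib_ne k N (mm v) (dd k v) hv.2).trans ?_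
          apply Nat.pow_le_pow_left
          apply Nat.mul_le_mul_left
          apply hD
          · have := Int.natAbs_ne_zero.mpr hv.2
            omega
          · exact dd_abs k N v hv.1
      _ ≤ N ^ 3 * (2 * D) ^ 2 := by
          rw [Finset.sum_const, smul_eq_mul]
          apply Nat.mul_le_mul_right
          refine (Finset.card_filter_le _ _).trans (le_of_eq ?_)
          unfold Pool.Agent.TH181.MW.tup
          rw [Fintype.card_piFinset]
          simp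
  · calc ∑ v ∈ (tup 3 N).filter (fun v => ¬ ¬ dd k v = 0),
        ((tup 3 N).filter (fun w => mm w = mm v ∧ dd k w = dd k v)).card
        ≤ ∑ _v ∈ (tup 3 N).filter (fun v => ¬ ¬ dd k v = 0), 2 * N := by
          apply Finset.sum_le_sum
          intro v hv
          rw [Finset.mem_filter, not_not] at hv
          rw [hv.2]
          exact fib_zero k N hk (mm v)
      _ ≤ (2 * N ^ 2) * (2 * N) := by
          rw [Finset.sum_const, smul_eq_mul]
          apply Nat.mul_le_mul_right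
          have h2 := zero_card k N hk
          have h3 : (tup 3 N).filter (fun v => ¬ ¬ dd k v = 0) = (tup 3 N).filter (fun w => dd k w = 0) := by
            apply Finset.filter_congr
            intro v _
            rw [not_not]
          rw [h3]
          exact h2
      _ = 4 * N ^ 3 := by ring

/-- the sixth moment -/
theorem six (k : ℕ) (hk : 2 ≤ k) (η : ℝ) (hη : 0 < η) : ∃ C : ℝ, 0 < C ∧ ∀ N : ℕ, 1 ≤ N →
    (J 3 k N : ℝ) ≤ C * (N : ℝ) ^ (3 + η) := by
  have hk0 : (0 : ℝ) < k := by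
    have : 0 < k := by omega
    exact_mod_cast this
  set δ : ℝ := η / (2 * k) with hδ
  have hδ0 : 0 < δ := by positivity
  obtain ⟨C0, hC0, hC⟩ := Pool.Agent.Helper112.divisor_bound δ hδ0
  set A : ℝ := ((3 : ℝ) + 2 ^ k) with hA
  have hA0 : 0 < A := by positivity
  set C1 : ℝ := (2 * (C0 * A ^ δ)) ^ 2 with hC1
  refine ⟨C1 + 4, by positivity, fun N hN => ?_⟩
  have hN' : (1 : ℝ) ≤ (N : ℝ) := by exact_mod_cast hN
  have hN0 : (0 : ℝ) < (N : ℝ) := by linarith
  set D : ℕ := ⌊C0 * (A * (N : ℝ) ^ k) ^ δ⌋₊ with hD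
  have hDb : ∀ n : ℕ, 1 ≤ n → n ≤ (3 + 2 ^ k) * N ^ k → n.divisors.card ≤ D := by
    intro n hn hn2
    rw [hD]
    apply Nat.le_floor
    refine (hC n hn).trans ?_
    apply mul_le_mul_of_nonneg_left _ hC0.le
    apply Real.rpow_le_rpow (by positivity) _ hδ0.le
    rw [hA]
    exact_mod_cast hn2
  have hDr : (2 * (D : ℝ)) ^ 2 ≤ C1 * (N : ℝ) ^ η := by
    have h1 : (D : ℝ) ≤ C0 * (A * (N : ℝ) ^ k) ^ δ := Nat.floor_le (by positivity)
    have h2 : (A * (N : ℝ) ^ k) ^ δ = A ^ δ * (N : ℝ) ^ (k * δ) := by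
      rw [Real.mul_rpow (by positivity) (by positivity), ← Real.rpow_natCast (N : ℝ) k, ← Real.rpow_mul hN0.le]
    have h3 : 2 * (D : ℝ) ≤ 2 * (C0 * A ^ δ) * (N : ℝ) ^ (k * δ) := by
      rw [h2] at h1
      calc 2 * (D : ℝ) ≤ 2 * (C0 * (A ^ δ * (N : ℝ) ^ (k * δ))) := by linarith
        _ = _ := by ring
    have h4 := pow_le_pow_left₀ (by positivity) h3 2
    refine h4.trans (le_of_eq ?_)
    rw [mul_pow, ← hC1]
    congr 1
    rw [← Real.rpow_natCast ((N : ℝ) ^ (k * δ)) 2, ← Real.rpow_mul hN0.le]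
    congr 1
    rw [hδ]; push_cast; field_simp
  have h5 := (J_le_RR k N).trans (RR_le k N D hk hDb)
  have h6 : (J 3 k N : ℝ) ≤ (N : ℝ) ^ 3 * (2 * (D : ℝ)) ^ 2 + 4 * (N : ℝ) ^ 3 := by exact_mod_cast h5
  have h7 : (N : ℝ) ^ (3 + η) = (N : ℝ) ^ 3 * (N : ℝ) ^ η := by
    rw [Real.rpow_add hN0]
    congr 1
    rw [← Real.rpow_natCast]; norm_num
  have h8 : 1 ≤ (N : ℝ) ^ η := Real.one_le_rpow hN' hη.le
  rw [h7]
  have h9 : 0 < (N : ℝ) ^ 3 := by positivity
  calc (J 3 k N : ℝ) ≤ (N : ℝ) ^ 3 * (2 * (D : ℝ)) ^ 2 + 4 * (N : ℝ) ^ 3 := h6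
    _ ≤ (N : ℝ) ^ 3 * (C1 * (N : ℝ) ^ η) + 4 * ((N : ℝ) ^ 3 * (N : ℝ) ^ η) := by
        apply add_le_add (mul_le_mul_of_nonneg_left hDr h9.le)
        nlinarith
    _ = (C1 + 4) * ((N : ℝ) ^ 3 * (N : ℝ) ^ η) := by ring

end Pool.Agent.Helper10K9.MWS
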